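import Mathlib

set_option autoImplicit false

namespace Pool.Agent.V8H98.CVP

open scoped ENNReal
open Finset

variable {G : Type*} [Group G]

/-- power mean inequality when at most `M` summands are nonzero -/
lemma pow_mean_sparse {ι : Type*} (s : Finset ι) (x : ι → ℝ≥0∞) (M : ℕ) {r : ℝ} (hr : 1 ≤ r)
    (h : ∀ t ⊆ s, (∀ i ∈ t, x i ≠ 0) → t.card ≤ M) :
    (∑ i ∈ s, x i) ^ r ≤ (M : ℝ≥0∞) ^ (r - 1) * ∑ i ∈ s, x i ^ r := by
  classical
  have h0 : ∑ i ∈ s, x i = ∑ i ∈ s.filter (fun i => x i ≠ 0), x i := (Finset.sum_filter_ne_zero s).symm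
  rw [h0]
  refine (ENNReal.rpow_sum_le_const_mul_sum_rpow _ _ hr).trans ?_
  refine mul_le_mul' (ENNReal.rpow_le_rpow ?_ (by linarith)) ?_
  · exact_mod_cast h _ (Finset.filter_subset _ _) (fun i hi => (Finset.mem_filter.1 hi).2)
  · exact Finset.sum_le_sum_of_subset (Finset.filter_subset _ _)

lemma tsum_sum_comm {ι α : Type*} (s : Finset ι) (f : ι → α → ℝ≥0∞) :
    ∑' a, ∑ i ∈ s, f i a = ∑ i ∈ s, ∑' a, f i a :=
  Summable.tsum_finsetSum (fun _ _ => ENNReal.summable)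

/-- convolution by the product of the two sets -/
noncomputable def cv (K A : Finset G) (x : G → ℝ≥0∞) (g : G) : ℝ≥0∞ := ∑ k ∈ K, ∑ a ∈ A, x (a⁻¹ * (k⁻¹ * g))

/-- convolution by the inverse of the product of the two sets -/
noncomputable def cvs (K A : Finset G) (x : G → ℝ≥0∞) (g : G) : ℝ≥0∞ := ∑ a ∈ A, ∑ k ∈ K, x (k * (a * g))

lemma tsum_mulLeft (k : G) (f : G → ℝ≥0∞) : ∑' g, f (k * g) = ∑' g, f g :=
  (Equiv.mulLeft k).tsum_eq f

open Classical in
theorem cv_upper (K A : Finset G) (B : Set G) (M : ℕ)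
    (h1 : ∀ y, ∀ t ⊆ K, (∀ k ∈ t, k⁻¹ * y ∈ B) → t.card ≤ M)
    (h2 : ∀ z, ∀ t ⊆ A, (∀ a ∈ t, a * z ∉ B) → t.card ≤ M)
    (x : G → ℝ≥0∞) {r : ℝ} (hr : 1 ≤ r) :
    ∑' g, (cv K A x g) ^ r ≤
      (2 : ℝ≥0∞) ^ (r - 1) * ((M : ℝ≥0∞) ^ (r - 1) * (K.card * ((A.card : ℝ≥0∞) ^ (r - 1) * A.card)) +
        (K.card : ℝ≥0∞) ^ (r - 1) * (K.card * ((A.card : ℝ≥0∞) ^ (r - 1) * M))) * ∑' g, x g ^ r := by
  set η : G → ℝ≥0∞ := fun u => ∑ a ∈ A, x (a⁻¹ * u) with hη
  set S := ∑' g, x g ^ r with hS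
  have hr0 : 0 ≤ r := by linarith
  have hrp : 0 < r := by linarith
  -- first part
  have hη1 : ∑' u, (B.indicator η u) ^ r ≤ (A.card : ℝ≥0∞) ^ (r - 1) * A.card * S := by
    calc ∑' u, (B.indicator η u) ^ r ≤ ∑' u, (A.card : ℝ≥0∞) ^ (r - 1) * ∑ a ∈ A, x (a⁻¹ * u) ^ r := by
          refine ENNReal.tsum_le_tsum fun u => ?_
          refine le_trans (ENNReal.rpow_le_rpow (Set.indicator_le_self' (fun _ _ => zero_le) u) hr0) ?_
          exact ENNReal.rpow_sum_le_const_mul_sum_rpow _ _ hr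
      _ = (A.card : ℝ≥0∞) ^ (r - 1) * ∑ a ∈ A, S := by
          rw [ENNReal.tsum_mul_left, tsum_sum_comm]
          congr 1
          refine Finset.sum_congr rfl fun a _ => ?_
          exact tsum_mulLeft a⁻¹ (fun g => x g ^ r)
      _ = (A.card : ℝ≥0∞) ^ (r - 1) * A.card * S := by
          rw [Finset.sum_const, nsmul_eq_mul, mul_assoc]
  have hη2 : ∑' u, (Bᶜ.indicator η u) ^ r ≤ (A.card : ℝ≥0∞) ^ (r - 1) * M * S := by
    calc ∑' u, (Bᶜ.indicator η u) ^ r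
        ≤ ∑' u, (A.card : ℝ≥0∞) ^ (r - 1) * ∑ a ∈ A, (if u ∈ B then 0 else x (a⁻¹ * u) ^ r) := by
          refine ENNReal.tsum_le_tsum fun u => ?_
          by_cases hu : u ∈ B
          · rw [Set.indicator_of_notMem (by simpa using hu), ENNReal.zero_rpow_of_pos hrp]
            exact zero_le
          · rw [Set.indicator_of_mem (by simpa using hu)]
            simp only [hu, if_false]
            exact ENNReal.rpow_sum_le_const_mul_sum_rpow _ _ hr
      _ = (A.card : ℝ≥0∞) ^ (r - 1) * ∑' z, ∑ a ∈ A, (if a * z ∈ B then 0 else x z ^ r) := by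
          rw [ENNReal.tsum_mul_left, tsum_sum_comm, tsum_sum_comm]
          congr 1
          refine Finset.sum_congr rfl fun a _ => ?_
          rw [← tsum_mulLeft a (fun u => if u ∈ B then 0 else x (a⁻¹ * u) ^ r)]
          simp
      _ ≤ (A.card : ℝ≥0∞) ^ (r - 1) * ∑' z, (M : ℝ≥0∞) * x z ^ r := by
          refine mul_le_mul' le_rfl (ENNReal.tsum_le_tsum fun z => ?_)
          rw [Finset.sum_ite, Finset.sum_const_zero, zero_add, Finset.sum_const, nsmul_eq_mul]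
          refine mul_le_mul' ?_ le_rfl
          exact_mod_cast h2 z _ (Finset.filter_subset _ _) (fun a ha => (Finset.mem_filter.1 ha).2)
      _ = (A.card : ℝ≥0∞) ^ (r - 1) * M * S := by rw [ENNReal.tsum_mul_left, mul_assoc]
  have hsplit : ∀ g, cv K A x g = ∑ k ∈ K, B.indicator η (k⁻¹ * g) + ∑ k ∈ K, Bᶜ.indicator η (k⁻¹ * g) := by
    intro g
    rw [← Finset.sum_add_distrib]
    refine Finset.sum_congr rfl fun k _ => ?_
    exact (Set.indicator_self_add_compl_apply B η (k⁻¹ * g)).symm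
  have hI : ∑' g, (∑ k ∈ K, B.indicator η (k⁻¹ * g)) ^ r ≤
      (M : ℝ≥0∞) ^ (r - 1) * (K.card * ((A.card : ℝ≥0∞) ^ (r - 1) * A.card * S)) := by
    calc ∑' g, (∑ k ∈ K, B.indicator η (k⁻¹ * g)) ^ r
        ≤ ∑' g, (M : ℝ≥0∞) ^ (r - 1) * ∑ k ∈ K, (B.indicator η (k⁻¹ * g)) ^ r := by
          refine ENNReal.tsum_le_tsum fun g => ?_
          refine pow_mean_sparse K _ M hr fun t ht hne => h1 g t ht fun k hk => ?_
          by_contra hcon
          exact hne k hk (Set.indicator_of_notMem hcon _)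
      _ = (M : ℝ≥0∞) ^ (r - 1) * ∑ k ∈ K, ∑' u, (B.indicator η u) ^ r := by
          rw [ENNReal.tsum_mul_left, tsum_sum_comm]
          congr 1
          refine Finset.sum_congr rfl fun k _ => ?_
          exact tsum_mulLeft k⁻¹ (fun g => (B.indicator η g) ^ r)
      _ ≤ _ := by
          rw [Finset.sum_const, nsmul_eq_mul]
          gcongr
  have hII : ∑' g, (∑ k ∈ K, Bᶜ.indicator η (k⁻¹ * g)) ^ r ≤
      (K.card : ℝ≥0∞) ^ (r - 1) * (K.card * ((A.card : ℝ≥0∞) ^ (r - 1) * M * S)) := by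
    calc ∑' g, (∑ k ∈ K, Bᶜ.indicator η (k⁻¹ * g)) ^ r
        ≤ ∑' g, (K.card : ℝ≥0∞) ^ (r - 1) * ∑ k ∈ K, (Bᶜ.indicator η (k⁻¹ * g)) ^ r := by
          refine ENNReal.tsum_le_tsum fun g => ?_
          exact ENNReal.rpow_sum_le_const_mul_sum_rpow _ _ hr
      _ = (K.card : ℝ≥0∞) ^ (r - 1) * ∑ k ∈ K, ∑' u, (Bᶜ.indicator η u) ^ r := by
          rw [ENNReal.tsum_mul_left, tsum_sum_comm]
          congr 1
          refine Finset.sum_congr rfl fun k _ => ?_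
          exact tsum_mulLeft k⁻¹ (fun g => (Bᶜ.indicator η g) ^ r)
      _ ≤ _ := by
          rw [Finset.sum_const, nsmul_eq_mul]
          gcongr
  calc ∑' g, (cv K A x g) ^ r
      ≤ ∑' g, (2 : ℝ≥0∞) ^ (r - 1) * ((∑ k ∈ K, B.indicator η (k⁻¹ * g)) ^ r +
          (∑ k ∈ K, Bᶜ.indicator η (k⁻¹ * g)) ^ r) := by
        refine ENNReal.tsum_le_tsum fun g => ?_
        rw [hsplit g]
        exact ENNReal.rpow_add_le_mul_rpow_add_rpow _ _ hr
    _ = (2 : ℝ≥0∞) ^ (r - 1) * (∑' g, (∑ k ∈ K, B.indicator η (k⁻¹ * g)) ^ r +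
          ∑' g, (∑ k ∈ K, Bᶜ.indicator η (k⁻¹ * g)) ^ r) := by
        rw [ENNReal.tsum_mul_left, ENNReal.tsum_add]
    _ ≤ (2 : ℝ≥0∞) ^ (r - 1) * ((M : ℝ≥0∞) ^ (r - 1) * (K.card * ((A.card : ℝ≥0∞) ^ (r - 1) * A.card * S)) +
          (K.card : ℝ≥0∞) ^ (r - 1) * (K.card * ((A.card : ℝ≥0∞) ^ (r - 1) * M * S))) := by
        gcongr
    _ = _ := by ring

open Classical in
theorem cvs_upper (K A : Finset G) (B : Set G) (M : ℕ)
    (h1 : ∀ y, ∀ t ⊆ K, (∀ k ∈ t, k⁻¹ * y ∈ B) → t.card ≤ M)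
    (h2 : ∀ z, ∀ t ⊆ A, (∀ a ∈ t, a * z ∉ B) → t.card ≤ M)
    (x : G → ℝ≥0∞) {r : ℝ} (hr : 1 ≤ r) :
    ∑' g, (cvs K A x g) ^ r ≤
      (2 : ℝ≥0∞) ^ (r - 1) * ((A.card : ℝ≥0∞) ^ (r - 1) * (A.card * ((K.card : ℝ≥0∞) ^ (r - 1) * M)) +
        (M : ℝ≥0∞) ^ (r - 1) * (A.card * ((K.card : ℝ≥0∞) ^ (r - 1) * K.card))) * ∑' g, x g ^ r := by
  set ζ : G → ℝ≥0∞ := fun u => ∑ k ∈ K, x (k * u) with hζ
  set S := ∑' g, x g ^ r with hS
  have hr0 : 0 ≤ r := by linarith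
  have hrp : 0 < r := by linarith
  have hζ1 : ∑' u, (Bᶜ.indicator ζ u) ^ r ≤ (K.card : ℝ≥0∞) ^ (r - 1) * K.card * S := by
    calc ∑' u, (Bᶜ.indicator ζ u) ^ r ≤ ∑' u, (K.card : ℝ≥0∞) ^ (r - 1) * ∑ k ∈ K, x (k * u) ^ r := by
          refine ENNReal.tsum_le_tsum fun u => ?_
          refine le_trans (ENNReal.rpow_le_rpow (Set.indicator_le_self' (fun _ _ => zero_le) u) hr0) ?_
          exact ENNReal.rpow_sum_le_const_mul_sum_rpow _ _ hr
      _ = (K.card : ℝ≥0∞) ^ (r - 1) * ∑ k ∈ K, S := by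
          rw [ENNReal.tsum_mul_left, tsum_sum_comm]
          congr 1
          refine Finset.sum_congr rfl fun k _ => ?_
          exact tsum_mulLeft k (fun g => x g ^ r)
      _ = (K.card : ℝ≥0∞) ^ (r - 1) * K.card * S := by
          rw [Finset.sum_const, nsmul_eq_mul, mul_assoc]
  have hζ2 : ∑' u, (B.indicator ζ u) ^ r ≤ (K.card : ℝ≥0∞) ^ (r - 1) * M * S := by
    calc ∑' u, (B.indicator ζ u) ^ r
        ≤ ∑' u, (K.card : ℝ≥0∞) ^ (r - 1) * ∑ k ∈ K, (if u ∈ B then x (k * u) ^ r else 0) := by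
          refine ENNReal.tsum_le_tsum fun u => ?_
          by_cases hu : u ∈ B
          · rw [Set.indicator_of_mem hu]
            simp only [hu, if_true]
            exact ENNReal.rpow_sum_le_const_mul_sum_rpow _ _ hr
          · rw [Set.indicator_of_notMem hu, ENNReal.zero_rpow_of_pos hrp]
            exact zero_le
      _ = (K.card : ℝ≥0∞) ^ (r - 1) * ∑' z, ∑ k ∈ K, (if k⁻¹ * z ∈ B then x z ^ r else 0) := by
          rw [ENNReal.tsum_mul_left, tsum_sum_comm, tsum_sum_comm]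
          congr 1
          refine Finset.sum_congr rfl fun k _ => ?_
          rw [← tsum_mulLeft k⁻¹ (fun u => if u ∈ B then x (k * u) ^ r else 0)]
          simp
      _ ≤ (K.card : ℝ≥0∞) ^ (r - 1) * ∑' z, (M : ℝ≥0∞) * x z ^ r := by
          refine mul_le_mul' le_rfl (ENNReal.tsum_le_tsum fun z => ?_)
          rw [Finset.sum_ite, Finset.sum_const_zero, add_zero, Finset.sum_const, nsmul_eq_mul]
          refine mul_le_mul' ?_ le_rfl
          exact_mod_cast h1 z _ (Finset.filter_subset _ _) (fun a ha => (Finset.mem_filter.1 ha).2)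
      _ = (K.card : ℝ≥0∞) ^ (r - 1) * M * S := by rw [ENNReal.tsum_mul_left, mul_assoc]
  have hsplit : ∀ g, cvs K A x g = ∑ a ∈ A, B.indicator ζ (a * g) + ∑ a ∈ A, Bᶜ.indicator ζ (a * g) := by
    intro g
    rw [← Finset.sum_add_distrib]
    refine Finset.sum_congr rfl fun a _ => ?_
    exact (Set.indicator_self_add_compl_apply B ζ (a * g)).symm
  have hI : ∑' g, (∑ a ∈ A, B.indicator ζ (a * g)) ^ r ≤
      (A.card : ℝ≥0∞) ^ (r - 1) * (A.card * ((K.card : ℝ≥0∞) ^ (r - 1) * M * S)) := by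
    calc ∑' g, (∑ a ∈ A, B.indicator ζ (a * g)) ^ r
        ≤ ∑' g, (A.card : ℝ≥0∞) ^ (r - 1) * ∑ a ∈ A, (B.indicator ζ (a * g)) ^ r := by
          refine ENNReal.tsum_le_tsum fun g => ?_
          exact ENNReal.rpow_sum_le_const_mul_sum_rpow _ _ hr
      _ = (A.card : ℝ≥0∞) ^ (r - 1) * ∑ a ∈ A, ∑' u, (B.indicator ζ u) ^ r := by
          rw [ENNReal.tsum_mul_left, tsum_sum_comm]
          congr 1
          refine Finset.sum_congr rfl fun a _ => ?_
          exact tsum_mulLeft a (fun g => (B.indicator ζ g) ^ r)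
      _ ≤ _ := by
          rw [Finset.sum_const, nsmul_eq_mul]
          gcongr
  have hII : ∑' g, (∑ a ∈ A, Bᶜ.indicator ζ (a * g)) ^ r ≤
      (M : ℝ≥0∞) ^ (r - 1) * (A.card * ((K.card : ℝ≥0∞) ^ (r - 1) * K.card * S)) := by
    calc ∑' g, (∑ a ∈ A, Bᶜ.indicator ζ (a * g)) ^ r
        ≤ ∑' g, (M : ℝ≥0∞) ^ (r - 1) * ∑ a ∈ A, (Bᶜ.indicator ζ (a * g)) ^ r := by
          refine ENNReal.tsum_le_tsum fun g => ?_
          refine pow_mean_sparse A _ M hr fun t ht hne => h2 g t ht fun a ha => ?_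
          intro hcon
          exact hne a ha (Set.indicator_of_notMem (by simpa using hcon) _)
      _ = (M : ℝ≥0∞) ^ (r - 1) * ∑ a ∈ A, ∑' u, (Bᶜ.indicator ζ u) ^ r := by
          rw [ENNReal.tsum_mul_left, tsum_sum_comm]
          congr 1
          refine Finset.sum_congr rfl fun a _ => ?_
          exact tsum_mulLeft a (fun g => (Bᶜ.indicator ζ g) ^ r)
      _ ≤ _ := by
          rw [Finset.sum_const, nsmul_eq_mul]
          gcongr
  calc ∑' g, (cvs K A x g) ^ r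
      ≤ ∑' g, (2 : ℝ≥0∞) ^ (r - 1) * ((∑ a ∈ A, B.indicator ζ (a * g)) ^ r +
          (∑ a ∈ A, Bᶜ.indicator ζ (a * g)) ^ r) := by
        refine ENNReal.tsum_le_tsum fun g => ?_
        rw [hsplit g]
        exact ENNReal.rpow_add_le_mul_rpow_add_rpow _ _ hr
    _ = (2 : ℝ≥0∞) ^ (r - 1) * (∑' g, (∑ a ∈ A, B.indicator ζ (a * g)) ^ r +
          ∑' g, (∑ a ∈ A, Bᶜ.indicator ζ (a * g)) ^ r) := by
        rw [ENNReal.tsum_mul_left, ENNReal.tsum_add]
    _ ≤ (2 : ℝ≥0∞) ^ (r - 1) * ((A.card : ℝ≥0∞) ^ (r - 1) * (A.card * ((K.card : ℝ≥0∞) ^ (r - 1) * M * S)) +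
          (M : ℝ≥0∞) ^ (r - 1) * (A.card * ((K.card : ℝ≥0∞) ^ (r - 1) * K.card * S))) := by
        gcongr
    _ = _ := by ring

/-- Jensen's inequality for series of weights with sum at most `1` -/
lemma jensen {x θ : ℕ → ℝ≥0∞} (hθ : ∑' n, θ n ≤ 1) {r : ℝ} (hr : 1 ≤ r) :
    (∑' n, θ n * x n) ^ r ≤ ∑' n, θ n * x n ^ r := by
  have hrp : 0 < r := by linarith
  have key : ∑' n, θ n * x n ≤ (∑' n, θ n * x n ^ r) ^ (1 / r) := by
    rw [ENNReal.tsum_eq_iSup_sum]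
    refine iSup_le fun s => ?_
    rcases eq_or_lt_of_le hr with h1 | h1
    · subst h1
      simpa using ENNReal.sum_le_tsum s
    · have hpq : r.HolderConjugate (r / (r - 1)) := Real.HolderConjugate.conjExponent h1
      set q := r / (r - 1) with hq
      have hq0 : 0 < q := hpq.symm.pos
      have h2 : ∑ n ∈ s, θ n * x n = ∑ n ∈ s, (θ n ^ (1 / r) * x n) * θ n ^ (1 / q) := by
        refine Finset.sum_congr rfl fun n _ => ?_
        have : θ n = θ n ^ (1 / r) * θ n ^ (1 / q) := by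
          rw [← ENNReal.rpow_add_of_nonneg _ _ (by positivity) (by positivity)]
          have : 1 / r + 1 / q = 1 := by
            simpa [one_div] using hpq.inv_add_inv_eq_one
          rw [this, ENNReal.rpow_one]
        conv_lhs => rw [this]
        ring
      rw [h2]
      refine (ENNReal.inner_le_Lp_mul_Lq s _ _ hpq).trans ?_
      have h3 : (∑ n ∈ s, (θ n ^ (1 / q)) ^ q) ^ (1 / q) ≤ 1 := by
        refine ENNReal.rpow_le_one ?_ (by positivity)
        refine le_trans (le_of_eq ?_) ((ENNReal.sum_le_tsum s).trans hθ)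
        refine Finset.sum_congr rfl fun n _ => ?_
        rw [← ENNReal.rpow_mul, one_div_mul_cancel hq0.ne', ENNReal.rpow_one]
      have h4 : ∑ n ∈ s, (θ n ^ (1 / r) * x n) ^ r ≤ ∑' n, θ n * x n ^ r := by
        refine le_trans (le_of_eq ?_) (ENNReal.sum_le_tsum s)
        refine Finset.sum_congr rfl fun n _ => ?_
        rw [ENNReal.mul_rpow_of_nonneg _ _ hrp.le, ← ENNReal.rpow_mul, one_div_mul_cancel hrp.ne',
          ENNReal.rpow_one]
      calc _ ≤ (∑' n, θ n * x n ^ r) ^ (1 / r) * 1 :=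
            mul_le_mul' (ENNReal.rpow_le_rpow h4 (by positivity)) h3
        _ = _ := mul_one _
  calc (∑' n, θ n * x n) ^ r ≤ ((∑' n, θ n * x n ^ r) ^ (1 / r)) ^ r := ENNReal.rpow_le_rpow key hrp.le
    _ = _ := by rw [← ENNReal.rpow_mul, one_div_mul_cancel hrp.ne', ENNReal.rpow_one]

end Pool.Agent.V8H98.CVP
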