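import Mathlib
import Pool.Agent.V8H98.CVP.Core

set_option autoImplicit false

namespace Pool.Agent.V8H98.CVP

open scoped ENNReal NNReal
open Finset

variable {G : Type*} [Group G]

/-- `f` is a `p`-convolver (the condition of the frozen statement) -/
def IsConvolver (p : ℝ) (f : G → ℂ) : Prop :=
  ∃ C : ℝ, ∀ ξ : G →₀ ℂ,
    Summable (fun g : G => ‖∑ k ∈ ξ.support, f (g * k⁻¹) * ξ k‖ ^ p) ∧
    ∑' g : G, ‖∑ k ∈ ξ.support, f (g * k⁻¹) * ξ k‖ ^ p ≤ C * ∑ k ∈ ξ.support, ‖ξ k‖ ^ p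

/-- boundedness of the convolution by `F` on nonnegative functions of finite support -/
def Bdd (p : ℝ) (F : G → ℝ≥0∞) : Prop :=
  ∃ C : ℝ≥0∞, C ≠ ⊤ ∧ ∀ x : G →₀ ℝ≥0,
    ∑' g, (∑ k ∈ x.support, F (g * k⁻¹) * x k) ^ p ≤ C * ∑' k, (x k : ℝ≥0∞) ^ p

lemma real_of_ennreal {T : G → ℝ} (hT : ∀ g, 0 ≤ T g) {c : ℝ} (hc : 0 ≤ c)
    (h : ∑' g, ENNReal.ofReal (T g) ≤ ENNReal.ofReal c) : Summable T ∧ ∑' g, T g ≤ c := by
  have hs : ∀ s : Finset G, ∑ g ∈ s, T g ≤ c := by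
    intro s
    have h1 : ENNReal.ofReal (∑ g ∈ s, T g) ≤ ENNReal.ofReal c := by
      rw [ENNReal.ofReal_sum_of_nonneg fun g _ => hT g]
      exact (ENNReal.sum_le_tsum s).trans h
    exact (ENNReal.ofReal_le_ofReal_iff hc).1 h1
  have hsum : Summable T := summable_of_sum_le hT hs
  exact ⟨hsum, hsum.tsum_le_of_sum_le hs⟩

lemma tsum_pow_support (x : G →₀ ℝ≥0) {p : ℝ} (hp : 0 < p) :
    ∑' k, (x k : ℝ≥0∞) ^ p = ∑ k ∈ x.support, (x k : ℝ≥0∞) ^ p := by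
  refine tsum_eq_sum fun k hk => ?_
  rw [Finsupp.notMem_support_iff.1 hk]
  simp [hp]

theorem isConvolver_iff {p : ℝ} (hp : 0 < p) {F : G → ℝ≥0∞} (hF : ∀ g, F g ≠ ⊤) :
    IsConvolver p (fun g => ((F g).toReal : ℂ)) ↔ Bdd p F := by
  constructor
  · rintro ⟨C, hC⟩
    refine ⟨ENNReal.ofReal C, ENNReal.ofReal_ne_top, fun x => ?_⟩
    set ξ : G →₀ ℂ := x.mapRange (fun t : ℝ≥0 => (t : ℂ)) (by simp) with hξ
    have hξk : ∀ k, ξ k = (x k : ℂ) := fun k => rfl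
    have hsupp : ξ.support = x.support := by
      ext k
      rw [Finsupp.mem_support_iff, Finsupp.mem_support_iff, hξk]
      simp
    obtain ⟨h1, h2⟩ := hC ξ
    rw [hsupp] at h1 h2
    have hval : ∀ g, ENNReal.ofReal (‖∑ k ∈ x.support, ((F (g * k⁻¹)).toReal : ℂ) * ξ k‖ ^ p) =
        (∑ k ∈ x.support, F (g * k⁻¹) * x k) ^ p := by
      intro g
      have e1 : ∑ k ∈ x.support, ((F (g * k⁻¹)).toReal : ℂ) * ξ k =
          (((∑ k ∈ x.support, F (g * k⁻¹) * x k).toReal : ℝ) : ℂ) := by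
        rw [ENNReal.toReal_sum (fun k _ => ENNReal.mul_ne_top (hF _) ENNReal.coe_ne_top)]
        push_cast
        refine Finset.sum_congr rfl fun k _ => ?_
        rw [ENNReal.toReal_mul, hξk]
        simp
      rw [e1, Complex.norm_real, Real.norm_of_nonneg ENNReal.toReal_nonneg,
        ← ENNReal.ofReal_rpow_of_nonneg ENNReal.toReal_nonneg hp.le, ENNReal.ofReal_toReal]
      exact ENNReal.sum_ne_top.2 fun k _ => ENNReal.mul_ne_top (hF _) ENNReal.coe_ne_top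
    have hsum : ∑ k ∈ x.support, ‖ξ k‖ ^ p = ∑ k ∈ x.support, (x k : ℝ) ^ p := by
      refine Finset.sum_congr rfl fun k _ => ?_
      rw [hξk]
      simp
    calc ∑' g, (∑ k ∈ x.support, F (g * k⁻¹) * x k) ^ p
        = ∑' g, ENNReal.ofReal (‖∑ k ∈ x.support, ((F (g * k⁻¹)).toReal : ℂ) * ξ k‖ ^ p) :=
          tsum_congr fun g => (hval g).symm
      _ = ENNReal.ofReal (∑' g, ‖∑ k ∈ x.support, ((F (g * k⁻¹)).toReal : ℂ) * ξ k‖ ^ p) :=
          (ENNReal.ofReal_tsum_of_nonneg (fun g => by positivity) h1).symm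
      _ ≤ ENNReal.ofReal (C * ∑ k ∈ x.support, ‖ξ k‖ ^ p) := ENNReal.ofReal_le_ofReal h2
      _ = ENNReal.ofReal C * ∑' k, (x k : ℝ≥0∞) ^ p := by
          rw [ENNReal.ofReal_mul' (by positivity), hsum, tsum_pow_support x hp,
            ENNReal.ofReal_sum_of_nonneg (fun k _ => by positivity)]
          congr 1
          refine Finset.sum_congr rfl fun k _ => ?_
          rw [← ENNReal.ofReal_rpow_of_nonneg (NNReal.coe_nonneg _) hp.le, ENNReal.ofReal_coe_nnreal]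
  · rintro ⟨C, hCt, hC⟩
    refine ⟨C.toReal, fun ξ => ?_⟩
    set x : G →₀ ℝ≥0 := ξ.mapRange (fun z : ℂ => ‖z‖₊) (by simp) with hx
    have hsupp : x.support = ξ.support := by
      ext k
      simp [hx]
    refine real_of_ennreal (fun g => by positivity) (by positivity) ?_
    calc ∑' g, ENNReal.ofReal (‖∑ k ∈ ξ.support, ((F (g * k⁻¹)).toReal : ℂ) * ξ k‖ ^ p)
        ≤ ∑' g, (∑ k ∈ x.support, F (g * k⁻¹) * x k) ^ p := by
          refine ENNReal.tsum_le_tsum fun g => ?_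
          rw [← ENNReal.ofReal_rpow_of_nonneg (norm_nonneg _) hp.le]
          refine ENNReal.rpow_le_rpow ?_ hp.le
          rw [ofReal_norm, hsupp]
          refine (enorm_sum_le _ _).trans (Finset.sum_le_sum fun k _ => ?_)
          rw [enorm_mul]
          refine mul_le_mul' ?_ ?_
          · rw [← ofReal_norm, Complex.norm_real, Real.norm_of_nonneg ENNReal.toReal_nonneg,
              ENNReal.ofReal_toReal (hF _)]
          · simp [hx, enorm_eq_nnnorm]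
      _ ≤ C * ∑' k, (x k : ℝ≥0∞) ^ p := hC x
      _ = ENNReal.ofReal (C.toReal * ∑ k ∈ ξ.support, ‖ξ k‖ ^ p) := by
          rw [ENNReal.ofReal_mul ENNReal.toReal_nonneg, ENNReal.ofReal_toReal hCt, tsum_pow_support x hp,
            hsupp, ENNReal.ofReal_sum_of_nonneg (fun k _ => by positivity)]
          congr 1
          refine Finset.sum_congr rfl fun k _ => ?_
          rw [← ENNReal.ofReal_rpow_of_nonneg (norm_nonneg _) hp.le, ofReal_norm]
          simp [hx, enorm_eq_nnnorm]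

/-- The combinatorial data used for the construction. -/
structure Data (G : Type*) [Group G] where
  B : Set G
  M : ℕ
  K : ℕ → Finset G
  A : ℕ → Finset G
  cardK : ∀ n, (K n).card = 4 ^ (n ^ 2)
  cardA : ∀ n, (A n).card = 4 ^ (n ^ 3)
  h1 : ∀ n y, ∀ t ⊆ K n, (∀ k ∈ t, k⁻¹ * y ∈ B) → t.card ≤ M
  h2 : ∀ n z, ∀ t ⊆ A n, (∀ a ∈ t, a * z ∉ B) → t.card ≤ M
  fol : ∀ n, ∃ D D' : Finset G, D.Nonempty ∧ D.card ≤ 2 * D'.card ∧ ∀ u ∈ D', ∀ a ∈ A n, a⁻¹ * u ∈ D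
  fol' : ∀ n, ∃ D D' : Finset G, D.Nonempty ∧ D.card ≤ 2 * D'.card ∧ (∀ u ∈ D', ∀ a ∈ A n, a * u ∈ D) ∧
    ∀ g, ∀ t ⊆ K n, (∀ k ∈ t, k⁻¹ * g ∈ D) → t.card ≤ M

/-- the weights of the series -/
noncomputable def θ (n : ℕ) : ℝ≥0∞ := 2 ^ (-((n : ℝ) + 1))

/-- the normalising constants; `s` is the threshold exponent, `w` is `0` (threshold included) or `2` (not included) -/
noncomputable def c (s w : ℝ) (n : ℕ) : ℝ≥0∞ := 2 ^ (w * n - 2 * (n : ℝ) ^ 2 / s - 2 * (n : ℝ) ^ 3)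

lemma tsum_θ : ∑' n, θ n = 1 := by
  have : ∀ n : ℕ, θ n = 2⁻¹ ^ (n + 1) := by
    intro n
    unfold θ
    rw [ENNReal.rpow_neg, ← ENNReal.inv_rpow]
    have : ((n : ℝ) + 1) = ((n + 1 : ℕ) : ℝ) := by push_cast; ring
    rw [this, ENNReal.rpow_natCast]
  simp_rw [this]
  exact ENNReal.tsum_geometric_add_one 2⁻¹ |>.trans (by
    rw [ENNReal.one_sub_inv_two, inv_inv]
    exact ENNReal.inv_mul_cancel (by norm_num) (by norm_num))

/-- the sign condition deciding boundedness -/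
def Ok (δ w : ℝ) : Prop := δ < 0 ∨ (δ = 0 ∧ w = 0)

lemma bound_quad {δ w α : ℝ} (h : Ok δ w) (hα : 0 ≤ α) (hw : 0 ≤ w) :
    ∃ B : ℝ, ∀ n : ℕ, α * w * n + 2 * (n : ℝ) ^ 2 * δ ≤ B := by
  rcases h with h | ⟨h, h'⟩
  · obtain ⟨N, hN⟩ := exists_nat_ge (α * w / (-2 * δ))
    refine ⟨α * w * N, fun n => ?_⟩
    have hn : (0 : ℝ) ≤ n := Nat.cast_nonneg n
    have hN0 : (0 : ℝ) ≤ N := Nat.cast_nonneg N
    have haw : 0 ≤ α * w := mul_nonneg hα hw
    have hN' : α * w ≤ N * (-2 * δ) := by rwa [div_le_iff₀ (by linarith)] at hN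
    rcases le_total (N : ℝ) n with h1 | h1
    · have h2 : α * w * n ≤ n * (-2 * δ) * n := by
        have : N * (-2 * δ) ≤ n * (-2 * δ) := mul_le_mul_of_nonneg_right h1 (by linarith)
        exact mul_le_mul_of_nonneg_right (hN'.trans this) hn
      have h3 : (n : ℝ) * (-2 * δ) * n + 2 * (n : ℝ) ^ 2 * δ = 0 := by ring
      have h4 : 0 ≤ α * w * N := by positivity
      linarith
    · have h2 : α * w * n ≤ α * w * N := mul_le_mul_of_nonneg_left h1 haw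
      have h3 : 2 * (n : ℝ) ^ 2 * δ ≤ 0 := mul_nonpos_of_nonneg_of_nonpos (by positivity) h.le
      linarith
  · exact ⟨0, fun n => by rw [h, h']; simp⟩

lemma bound_cub (α β : ℝ) {γ : ℝ} (hγ : 0 < γ) :
    ∃ B : ℝ, ∀ n : ℕ, α * n + β * (n : ℝ) ^ 2 - γ * (n : ℝ) ^ 3 ≤ B := by
  obtain ⟨N, hN⟩ := exists_nat_ge ((|α| + |β|) / γ)
  refine ⟨|α| * N + |β| * (N : ℝ) ^ 2, fun n => ?_⟩
  have hn : (0 : ℝ) ≤ n := Nat.cast_nonneg n
  have hN0 : (0 : ℝ) ≤ N := Nat.cast_nonneg N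
  have ha := le_abs_self α
  have hb := le_abs_self β
  have ha0 := abs_nonneg α
  have hb0 := abs_nonneg β
  have h1 : α * n ≤ |α| * n := mul_le_mul_of_nonneg_right ha hn
  have h2 : β * (n : ℝ) ^ 2 ≤ |β| * (n : ℝ) ^ 2 := mul_le_mul_of_nonneg_right hb (by positivity)
  rcases le_total n N with hc | hc
  · have hc' : (n : ℝ) ≤ N := by exact_mod_cast hc
    have h3 : |α| * n ≤ |α| * N := mul_le_mul_of_nonneg_left hc' ha0
    have h4 : |β| * (n : ℝ) ^ 2 ≤ |β| * (N : ℝ) ^ 2 :=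
      mul_le_mul_of_nonneg_left (pow_le_pow_left₀ hn hc' 2) hb0
    have h5 : 0 ≤ γ * (n : ℝ) ^ 3 := by positivity
    linarith
  · have hc' : (N : ℝ) ≤ n := by exact_mod_cast hc
    have h3 : |α| + |β| ≤ n * γ := by
      have : (|α| + |β|) / γ ≤ n := hN.trans hc'
      rwa [div_le_iff₀ hγ] at this
    have h4 : |α| * n + |β| * (n : ℝ) ^ 2 ≤ (|α| + |β|) * (n : ℝ) ^ 2 := by
      rcases Nat.eq_zero_or_pos n with h0 | h0
      · subst h0; simp
      · have h1n : (1 : ℝ) ≤ n := by exact_mod_cast h0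
        have : (n : ℝ) ≤ (n : ℝ) ^ 2 := by nlinarith
        nlinarith
    have h5 : (|α| + |β|) * (n : ℝ) ^ 2 ≤ n * γ * (n : ℝ) ^ 2 := mul_le_mul_of_nonneg_right h3 (by positivity)
    have h6 : (n : ℝ) * γ * (n : ℝ) ^ 2 = γ * (n : ℝ) ^ 3 := by ring
    have h7 : 0 ≤ |α| * N + |β| * (N : ℝ) ^ 2 := by positivity
    linarith

section
open Classical

variable (D : Data G) (s w : ℝ)

/-- number of representations of `g` as a product -/
noncomputable def mult (n : ℕ) (g : G) : ℝ≥0∞ := ∑ k ∈ D.K n, ∑ a ∈ D.A n, if k * a = g then 1 else 0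

/-- the kernel -/
noncomputable def Fker (g : G) : ℝ≥0∞ := ∑' n, θ n * (c s w n * mult D n g)

lemma mult_le (n : ℕ) (g : G) : mult D n g ≤ (D.K n).card := by
  unfold mult
  calc ∑ k ∈ D.K n, ∑ a ∈ D.A n, (if k * a = g then (1 : ℝ≥0∞) else 0)
      ≤ ∑ k ∈ D.K n, 1 := by
        refine Finset.sum_le_sum fun k _ => ?_
        have : ∀ a, (if k * a = g then (1 : ℝ≥0∞) else 0) = if a = k⁻¹ * g then 1 else 0 := by
          intro a
          congr 1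
          rw [eq_iff_iff, eq_inv_mul_iff_mul_eq]
        simp_rw [this, Finset.sum_ite_eq']
        split_ifs <;> simp
    _ = _ := by simp

lemma cardK_eq (n : ℕ) : ((D.K n).card : ℝ≥0∞) = 2 ^ (2 * (n : ℝ) ^ 2) := by
  rw [D.cardK]
  push_cast
  have h4 : (4 : ℝ≥0∞) = 2 ^ (2 : ℝ) := by norm_num
  rw [h4, ← ENNReal.rpow_natCast, ← ENNReal.rpow_mul]
  push_cast
  rfl

lemma cardA_eq (n : ℕ) : ((D.A n).card : ℝ≥0∞) = 2 ^ (2 * (n : ℝ) ^ 3) := by
  rw [D.cardA]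
  push_cast
  have h4 : (4 : ℝ≥0∞) = 2 ^ (2 : ℝ) := by norm_num
  rw [h4, ← ENNReal.rpow_natCast, ← ENNReal.rpow_mul]
  push_cast
  rfl

lemma radd (x y : ℝ) : (2 : ℝ≥0∞) ^ x * 2 ^ y = 2 ^ (x + y) :=
  (ENNReal.rpow_add x y (by norm_num) (by norm_num)).symm

lemma rmono {x y : ℝ} (h : x ≤ y) : (2 : ℝ≥0∞) ^ x ≤ 2 ^ y :=
  ENNReal.rpow_le_rpow_of_exponent_le (by norm_num) h

lemma r_ne_top (x : ℝ) : (2 : ℝ≥0∞) ^ x ≠ ⊤ := ENNReal.rpow_ne_top_of_ne_zero (by norm_num) (by norm_num)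

variable {s}

lemma Fker_ne_top (hs : 0 < s) (g : G) : Fker D s w g ≠ ⊤ := by
  obtain ⟨B, hB⟩ := bound_cub w 2 (γ := 2) (by norm_num)
  have : Fker D s w g ≤ 2 ^ B := by
    calc Fker D s w g ≤ ∑' n, θ n * 2 ^ B := by
          refine ENNReal.tsum_le_tsum fun n => mul_le_mul' le_rfl ?_
          calc c s w n * mult D n g ≤ c s w n * (D.K n).card := mul_le_mul' le_rfl (mult_le D n g)
            _ ≤ 2 ^ B := by
              rw [cardK_eq]
              unfold c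
              rw [radd]
              refine rmono ?_
              have := hB n
              have h2 : 0 ≤ 2 * (n : ℝ) ^ 2 / s := by positivity
              linarith
      _ = 2 ^ B := by rw [ENNReal.tsum_mul_right, tsum_θ, one_mul]
  exact ne_top_of_le_ne_top (r_ne_top B) this

variable (s)

lemma conv_eq (x : G →₀ ℝ≥0) (g : G) : ∑ h ∈ x.support, Fker D s w (g * h⁻¹) * x h =
    ∑' n, θ n * (c s w n * cv (D.K n) (D.A n) (fun u => (x u : ℝ≥0∞)) g) := by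
  unfold Fker
  simp_rw [← ENNReal.tsum_mul_right]
  rw [← tsum_sum_comm]
  refine tsum_congr fun n => ?_
  simp_rw [mul_assoc]
  rw [← Finset.mul_sum, ← Finset.mul_sum]
  congr 2
  unfold mult cv
  simp_rw [Finset.sum_mul]
  rw [Finset.sum_comm]
  refine Finset.sum_congr rfl fun k _ => ?_
  rw [Finset.sum_comm]
  refine Finset.sum_congr rfl fun a _ => ?_
  have : ∀ h, (if k * a = g * h⁻¹ then (1 : ℝ≥0∞) else 0) * x h = if h = a⁻¹ * (k⁻¹ * g) then (x h : ℝ≥0∞) else 0 := by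
    intro h
    have : k * a = g * h⁻¹ ↔ h = a⁻¹ * (k⁻¹ * g) := by
      rw [eq_mul_inv_iff_mul_eq, eq_inv_mul_iff_mul_eq, eq_inv_mul_iff_mul_eq, mul_assoc]
    by_cases hh : k * a = g * h⁻¹
    · rw [if_pos hh, if_pos (this.1 hh), one_mul]
    · rw [if_neg hh, if_neg (fun h' => hh (this.2 h')), zero_mul]
  simp_rw [this, Finset.sum_ite_eq']
  split_ifs with hs
  · rfl
  · rw [Finsupp.notMem_support_iff.1 hs]; rfl

lemma convs_eq (x : G →₀ ℝ≥0) (g : G) : ∑ h ∈ x.support, Fker D s w ((g * h⁻¹)⁻¹) * x h =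
    ∑' n, θ n * (c s w n * cvs (D.K n) (D.A n) (fun u => (x u : ℝ≥0∞)) g) := by
  unfold Fker
  simp_rw [← ENNReal.tsum_mul_right]
  rw [← tsum_sum_comm]
  refine tsum_congr fun n => ?_
  simp_rw [mul_assoc]
  rw [← Finset.mul_sum, ← Finset.mul_sum]
  congr 2
  unfold mult cvs
  simp_rw [Finset.sum_mul]
  rw [Finset.sum_comm, Finset.sum_comm (s := D.A n)]
  refine Finset.sum_congr rfl fun k _ => ?_
  rw [Finset.sum_comm]
  refine Finset.sum_congr rfl fun a _ => ?_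
  have : ∀ h, (if k * a = (g * h⁻¹)⁻¹ then (1 : ℝ≥0∞) else 0) * x h = if h = k * (a * g) then (x h : ℝ≥0∞) else 0 := by
    intro h
    have : k * a = (g * h⁻¹)⁻¹ ↔ h = k * (a * g) := by
      rw [mul_inv_rev, inv_inv, eq_mul_inv_iff_mul_eq, mul_assoc, eq_comm]
    by_cases hh : k * a = (g * h⁻¹)⁻¹
    · rw [if_pos hh, if_pos (this.1 hh), one_mul]
    · rw [if_neg hh, if_neg (fun h' => hh (this.2 h')), zero_mul]
  simp_rw [this, Finset.sum_ite_eq']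
  split_ifs with hs
  · rfl
  · rw [Finsupp.notMem_support_iff.1 hs]; rfl

end

/-- summation of the blocks -/
lemma sum_blocks {r : ℝ} (hr : 1 ≤ r) (s w : ℝ) (S : ℝ≥0∞) (E : ℝ≥0∞) (W : ℕ → G → ℝ≥0∞)
    (hW : ∀ n, c s w n ^ r * ∑' g, W n g ^ r ≤ E * S) :
    ∑' g, (∑' n, θ n * (c s w n * W n g)) ^ r ≤ E * S := by
  have hr0 : 0 ≤ r := by linarith
  calc ∑' g, (∑' n, θ n * (c s w n * W n g)) ^ r
      ≤ ∑' g, ∑' n, θ n * (c s w n * W n g) ^ r := ENNReal.tsum_le_tsum fun g => jensen tsum_θ.le hr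
    _ = ∑' n, θ n * (c s w n ^ r * ∑' g, W n g ^ r) := by
        rw [ENNReal.tsum_comm]
        refine tsum_congr fun n => ?_
        rw [ENNReal.tsum_mul_left]
        congr 1
        simp_rw [ENNReal.mul_rpow_of_nonneg _ _ hr0]
        rw [ENNReal.tsum_mul_left]
    _ ≤ ∑' n, θ n * (E * S) := ENNReal.tsum_le_tsum fun n => mul_le_mul' le_rfl (hW n)
    _ = E * S := by rw [ENNReal.tsum_mul_right, tsum_θ, one_mul]

lemma cpow (s w : ℝ) (n : ℕ) (r : ℝ) :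
    c s w n ^ r = 2 ^ ((w * n - 2 * (n : ℝ) ^ 2 / s - 2 * (n : ℝ) ^ 3) * r) := by
  unfold c
  rw [← ENNReal.rpow_mul]

theorem upper (D : Data G) {s w r : ℝ} (hs : 0 < s) (hw : 0 ≤ w) (hr1 : 1 < r) (hok : Ok (1 - r / s) w) :
    Bdd r (Fker D s w) := by
  have hr0 : 0 < r := by linarith
  obtain ⟨B₁, hB₁⟩ := bound_quad hok hr0.le hw
  obtain ⟨B₂, hB₂⟩ := bound_cub (r * w) (2 * r) (γ := 2) (by norm_num)
  set E : ℝ≥0∞ := 2 ^ (r - 1) * ((D.M : ℝ≥0∞) ^ (r - 1) * 2 ^ B₁ + 2 ^ B₂ * D.M) with hE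
  have hEt : E ≠ ⊤ := by
    refine ENNReal.mul_ne_top (r_ne_top _) ?_
    exact ENNReal.add_ne_top.2 ⟨ENNReal.mul_ne_top (ENNReal.rpow_ne_top_of_nonneg (by linarith) (by simp)) (r_ne_top _),
      ENNReal.mul_ne_top (r_ne_top _) (by simp)⟩
  refine ⟨E, hEt, fun x => ?_⟩
  simp_rw [conv_eq]
  refine sum_blocks hr1.le s w _ _ _ fun n => ?_
  set S := ∑' k, (x k : ℝ≥0∞) ^ r
  have h := cv_upper (D.K n) (D.A n) D.B D.M (D.h1 n) (D.h2 n) (fun u => (x u : ℝ≥0∞)) hr1.le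
  calc c s w n ^ r * ∑' g, cv (D.K n) (D.A n) (fun u => (x u : ℝ≥0∞)) g ^ r
      ≤ c s w n ^ r * ((2 : ℝ≥0∞) ^ (r - 1) * ((D.M : ℝ≥0∞) ^ (r - 1) *
          ((D.K n).card * (((D.A n).card : ℝ≥0∞) ^ (r - 1) * (D.A n).card)) +
          ((D.K n).card : ℝ≥0∞) ^ (r - 1) * ((D.K n).card * (((D.A n).card : ℝ≥0∞) ^ (r - 1) * D.M))) * S) :=
        mul_le_mul' le_rfl h
    _ = (2 : ℝ≥0∞) ^ (r - 1) * ((D.M : ℝ≥0∞) ^ (r - 1) *
          (c s w n ^ r * ((D.K n).card * (((D.A n).card : ℝ≥0∞) ^ (r - 1) * (D.A n).card))) +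
          (c s w n ^ r * (((D.K n).card : ℝ≥0∞) ^ (r - 1) * ((D.K n).card * ((D.A n).card : ℝ≥0∞) ^ (r - 1)))) * D.M) * S := by
        ring
    _ ≤ E * S := by
        rw [cardK_eq, cardA_eq, cpow, ← ENNReal.rpow_mul, ← ENNReal.rpow_mul, radd, radd, radd, radd, radd, radd, hE]
        refine mul_le_mul' (mul_le_mul' le_rfl (add_le_add (mul_le_mul' le_rfl (rmono ?_))
          (mul_le_mul' (rmono ?_) le_rfl))) le_rfl
        · refine le_trans (le_of_eq ?_) (hB₁ n)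
          field_simp
          ring
        · have h2 : 0 ≤ 2 * (n : ℝ) ^ 2 / s * r := by positivity
          refine le_trans (le_of_eq (?_ : _ = (r * w * n + 2 * r * (n : ℝ) ^ 2 - 2 * (n : ℝ) ^ 3) -
            2 * (n : ℝ) ^ 2 / s * r)) ?_
          · ring
          · have := hB₂ n
            linarith

theorem upper_star (D : Data G) {s w r : ℝ} (hs : 0 < s) (hw : 0 ≤ w) (hr1 : 1 < r) (hok : Ok (r - 1 - r / s) w) :
    Bdd r (fun g => Fker D s w g⁻¹) := by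
  have hr0 : 0 < r := by linarith
  obtain ⟨B₁, hB₁⟩ := bound_quad hok hr0.le hw
  obtain ⟨B₂, hB₂⟩ := bound_cub (r * w) (2 * r) (γ := 2 * (r - 1)) (by linarith)
  set E : ℝ≥0∞ := 2 ^ (r - 1) * (2 ^ B₁ * D.M + (D.M : ℝ≥0∞) ^ (r - 1) * 2 ^ B₂) with hE
  have hEt : E ≠ ⊤ := by
    refine ENNReal.mul_ne_top (r_ne_top _) ?_
    exact ENNReal.add_ne_top.2 ⟨ENNReal.mul_ne_top (r_ne_top _) (by simp),
      ENNReal.mul_ne_top (ENNReal.rpow_ne_top_of_nonneg (by linarith) (by simp)) (r_ne_top _)⟩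
  refine ⟨E, hEt, fun x => ?_⟩
  simp_rw [convs_eq]
  refine sum_blocks hr1.le s w _ _ _ fun n => ?_
  set S := ∑' k, (x k : ℝ≥0∞) ^ r
  have h := cvs_upper (D.K n) (D.A n) D.B D.M (D.h1 n) (D.h2 n) (fun u => (x u : ℝ≥0∞)) hr1.le
  calc c s w n ^ r * ∑' g, cvs (D.K n) (D.A n) (fun u => (x u : ℝ≥0∞)) g ^ r
      ≤ c s w n ^ r * ((2 : ℝ≥0∞) ^ (r - 1) * (((D.A n).card : ℝ≥0∞) ^ (r - 1) *
          ((D.A n).card * (((D.K n).card : ℝ≥0∞) ^ (r - 1) * D.M)) +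
          (D.M : ℝ≥0∞) ^ (r - 1) * ((D.A n).card * (((D.K n).card : ℝ≥0∞) ^ (r - 1) * (D.K n).card))) * S) :=
        mul_le_mul' le_rfl h
    _ = (2 : ℝ≥0∞) ^ (r - 1) * ((c s w n ^ r * (((D.A n).card : ℝ≥0∞) ^ (r - 1) *
          ((D.A n).card * ((D.K n).card : ℝ≥0∞) ^ (r - 1)))) * D.M +
          (D.M : ℝ≥0∞) ^ (r - 1) * (c s w n ^ r * ((D.A n).card * (((D.K n).card : ℝ≥0∞) ^ (r - 1) * (D.K n).card)))) * S := by
        ring
    _ ≤ E * S := by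
        rw [cardK_eq, cardA_eq, cpow, ← ENNReal.rpow_mul, ← ENNReal.rpow_mul, radd, radd, radd, radd, radd, radd, hE]
        refine mul_le_mul' (mul_le_mul' le_rfl (add_le_add (mul_le_mul' (rmono ?_) le_rfl)
          (mul_le_mul' le_rfl (rmono ?_)))) le_rfl
        · refine le_trans (le_of_eq ?_) (hB₁ n)
          field_simp
          ring
        · have h2 : 0 ≤ 2 * (n : ℝ) ^ 2 / s * r := by positivity
          refine le_trans (le_of_eq (?_ : _ = (r * w * n + 2 * r * (n : ℝ) ^ 2 - 2 * (r - 1) * (n : ℝ) ^ 3) -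
            2 * (n : ℝ) ^ 2 / s * r)) ?_
          · ring
          · have := hB₂ n
            linarith

end Pool.Agent.V8H98.CVP
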