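import Mathlib
import Pool.Agent.V8H98.CVP.Main

set_option autoImplicit false

namespace Pool.Agent.V8H98.CVP

open scoped ENNReal NNReal
open Finset

variable {G : Type*} [Group G]

lemma sum_rpow_le {ι : Type*} (s : Finset ι) (x : ι → ℝ≥0∞) {r : ℝ} (hr : 1 ≤ r) :
    ∑ i ∈ s, x i ^ r ≤ (∑ i ∈ s, x i) ^ r := by
  classical
  induction s using Finset.induction_on with
  | empty => simp
  | insert a s ha ih =>
    rw [Finset.sum_insert ha, Finset.sum_insert ha]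
    exact (add_le_add le_rfl ih).trans (ENNReal.add_rpow_le_rpow_add _ _ hr)

lemma sum_le_tsum' (s : Finset G) (f : G → ℝ≥0∞) : ∑ g ∈ s, f g ≤ ∑' g, f g := ENNReal.sum_le_tsum s

open Classical in
theorem cv_lower (K A D D' : Finset G) (hD : ∀ u ∈ D', ∀ a ∈ A, a⁻¹ * u ∈ D) (x : G → ℝ≥0∞)
    (hx : ∀ u ∈ D, x u = 1) {r : ℝ} (hr : 1 ≤ r) :
    (K.card : ℝ≥0∞) * (D'.card * (A.card : ℝ≥0∞) ^ r) ≤ ∑' g, (cv K A x g) ^ r := by
  set η : G → ℝ≥0∞ := fun u => ∑ a ∈ A, x (a⁻¹ * u) with hη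
  calc (K.card : ℝ≥0∞) * (D'.card * (A.card : ℝ≥0∞) ^ r)
      = ∑ k ∈ K, ∑ u ∈ D', (A.card : ℝ≥0∞) ^ r := by
        rw [Finset.sum_const, Finset.sum_const, nsmul_eq_mul, nsmul_eq_mul]
    _ ≤ ∑ k ∈ K, ∑' u, η u ^ r := by
        refine Finset.sum_le_sum fun k _ => le_trans ?_ (sum_le_tsum' D' _)
        refine Finset.sum_le_sum fun u hu => ENNReal.rpow_le_rpow (le_of_eq ?_) (by linarith)
        rw [hη]
        simp only
        rw [Finset.sum_congr rfl fun a ha => hx _ (hD u hu a ha)]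
        simp
    _ = ∑' g, ∑ k ∈ K, η (k⁻¹ * g) ^ r := by
        rw [tsum_sum_comm]
        refine Finset.sum_congr rfl fun k _ => ?_
        exact (tsum_mulLeft k⁻¹ (fun g => η g ^ r)).symm
    _ ≤ ∑' g, (cv K A x g) ^ r := ENNReal.tsum_le_tsum fun g => sum_rpow_le K _ hr

open Classical in
theorem cvs_lower (K A D D' : Finset G) (hD : ∀ u ∈ D', ∀ a ∈ A, a * u ∈ D) (x : G → ℝ≥0∞)
    (hx : ∀ k ∈ K, ∀ u ∈ D, 1 ≤ x (k * u)) {r : ℝ} (hr : 0 ≤ r) :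
    (D'.card : ℝ≥0∞) * ((A.card : ℝ≥0∞) * K.card) ^ r ≤ ∑' g, (cvs K A x g) ^ r := by
  calc (D'.card : ℝ≥0∞) * ((A.card : ℝ≥0∞) * K.card) ^ r = ∑ g ∈ D', ((A.card : ℝ≥0∞) * K.card) ^ r := by
        rw [Finset.sum_const, nsmul_eq_mul]
    _ ≤ ∑ g ∈ D', (cvs K A x g) ^ r := by
        refine Finset.sum_le_sum fun g hg => ENNReal.rpow_le_rpow ?_ hr
        calc (A.card : ℝ≥0∞) * K.card = ∑ a ∈ A, ∑ k ∈ K, 1 := by
              simp [Finset.sum_const, nsmul_eq_mul]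
          _ ≤ cvs K A x g := Finset.sum_le_sum fun a ha => Finset.sum_le_sum fun k hk => hx k hk _ (hD g hg a ha)
    _ ≤ _ := sum_le_tsum' D' _

/-- growth of the lower bounds -/
lemma growth {s r : ℝ} (hs : 0 < s) (hr : 0 ≤ r) {C : ℝ≥0∞} (hC : C ≠ ⊤) :
    ∃ n : ℕ, C < 2 ^ ((n : ℝ) ^ 2 * s - (n + 1) * r) := by
  obtain ⟨m, hm⟩ := ENNReal.exists_nat_gt hC
  obtain ⟨n, hn⟩ := exists_nat_ge (((2 * r + m + 1) / s) + 1)
  have hn1 : (1 : ℝ) ≤ n := by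
    have : 0 ≤ (2 * r + m + 1) / s := by positivity
    linarith
  have hns : 2 * r + m + 1 ≤ n * s := by
    have : (2 * r + m + 1) / s ≤ n := by linarith
    rwa [div_le_iff₀ hs] at this
  refine ⟨n, hm.trans_le ?_⟩
  have h1 : (m : ℝ≥0∞) ≤ 2 ^ (m : ℝ) := by
    rw [ENNReal.rpow_natCast]
    exact_mod_cast (Nat.lt_two_pow_self (n := m)).le
  refine h1.trans (ENNReal.rpow_le_rpow_of_exponent_le (by norm_num) ?_)
  have h2 : (n : ℝ) ^ 2 * s = n * (n * s) := by ring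
  rw [h2]
  have h3 : (n : ℝ) * (2 * r + m + 1) ≤ n * (n * s) := mul_le_mul_of_nonneg_left hns (by linarith)
  have h4 : (n : ℝ) * (2 * r + m + 1) = n * r + (n * r + n * (m + 1)) := by ring
  have h5 : r ≤ n * r := by nlinarith
  have h6 : ((m : ℝ) + 1) ≤ n * (m + 1) := by
    have : (0 : ℝ) ≤ m + 1 := by positivity
    nlinarith
  nlinarith

lemma growth' {δ w r : ℝ} (hok : ¬ Ok δ w) (hw : w = 0 ∨ w = 2) (hr : 0 < r) {C : ℝ≥0∞} (hC : C ≠ ⊤) :
    ∃ n : ℕ, C < 2 ^ (2 * (n : ℝ) ^ 2 * δ + r * w * n - (n + 1) * r) := by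
  unfold Ok at hok
  push Not at hok
  obtain ⟨h0, h1⟩ := hok
  have hw0 : 0 ≤ w := by rcases hw with h | h <;> rw [h]; norm_num
  rcases h0.lt_or_eq with hδ | hδ
  · obtain ⟨n, hn⟩ := growth (s := 2 * δ) (r := r) (by linarith) hr.le hC
    refine ⟨n, hn.trans_le (rmono ?_)⟩
    have : 0 ≤ r * w * n := by positivity
    linarith
  · have hw2 : w = 2 := by
      rcases hw with h | h
      · exact absurd h (h1 hδ.symm)
      · exact h
    obtain ⟨m, hm⟩ := ENNReal.exists_nat_gt hC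
    obtain ⟨n, hn⟩ := exists_nat_ge ((m : ℝ) / r + 1)
    refine ⟨n, hm.trans_le ?_⟩
    have h2 : (m : ℝ≥0∞) ≤ 2 ^ (m : ℝ) := by
      rw [ENNReal.rpow_natCast]
      exact_mod_cast (Nat.lt_two_pow_self (n := m)).le
    refine h2.trans (rmono ?_)
    have h3 : (m : ℝ) ≤ (n - 1) * r := by
      have : (m : ℝ) / r ≤ n - 1 := by linarith
      rwa [div_le_iff₀ hr] at this
    rw [← hδ, hw2]
    linarith

lemma θpow (n : ℕ) (r : ℝ) : θ n ^ r = 2 ^ (-((n : ℝ) + 1) * r) := by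
  unfold θ
  rw [← ENNReal.rpow_mul]

/-- a single block of the series -/
lemma block_le {r : ℝ} (hr : 0 ≤ r) (s w : ℝ) (W : ℕ → G → ℝ≥0∞) (n : ℕ) :
    (θ n * c s w n) ^ r * ∑' g, W n g ^ r ≤ ∑' g, (∑' n, θ n * (c s w n * W n g)) ^ r := by
  rw [← ENNReal.tsum_mul_left]
  refine ENNReal.tsum_le_tsum fun g => ?_
  rw [← ENNReal.mul_rpow_of_nonneg _ _ hr, mul_assoc]
  exact ENNReal.rpow_le_rpow (ENNReal.le_tsum n) hr

open Classical in
theorem not_bdd (D : Data G) {s w r : ℝ} (hw : w = 0 ∨ w = 2) (hr1 : 1 ≤ r) (hok : ¬ Ok (1 - r / s) w) :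
    ¬ Bdd r (Fker D s w) := by
  rintro ⟨C, hC, h⟩
  obtain ⟨n, hn⟩ := growth' hok hw (by linarith : (0 : ℝ) < r)
    (C := 2 * C) (ENNReal.mul_ne_top (by norm_num) hC)
  obtain ⟨E, E', hE, hcard, hEA⟩ := D.fol n
  set x : G →₀ ℝ≥0 := Finsupp.onFinset E (fun g => if g ∈ E then 1 else 0) (by
    intro a ha
    by_contra hcon
    simp [hcon] at ha) with hx
  have hxE : ∀ u, (x u : ℝ≥0∞) = if u ∈ E then 1 else 0 := by
    intro u
    simp only [hx, Finsupp.onFinset_apply]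
    split_ifs <;> simp
  have h1 := h x
  simp_rw [conv_eq] at h1
  have h2 : ∑' k, (x k : ℝ≥0∞) ^ r = E.card := by
    simp_rw [hxE]
    rw [tsum_eq_sum (s := E) (fun b hb => by simp [hb]; linarith),
      Finset.sum_congr rfl (fun u hu => by rw [if_pos hu, ENNReal.one_rpow])]
    simp
  have h3 := (block_le (by linarith : (0 : ℝ) ≤ r) s w (fun n g => cv (D.K n) (D.A n) (fun u => (x u : ℝ≥0∞)) g) n).trans h1
  have h4 := cv_lower (D.K n) (D.A n) E E' hEA (fun u => (x u : ℝ≥0∞)) (fun u hu => by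
    rw [hxE, if_pos hu]) hr1
  have hE' : (E'.card : ℝ≥0∞) ≠ 0 := by
    have : 0 < E.card := Finset.card_pos.2 hE
    have : 0 < E'.card := by omega
    exact_mod_cast this.ne'
  have h5 : (θ n * c s w n) ^ r * ((D.K n).card * (E'.card * ((D.A n).card : ℝ≥0∞) ^ r)) ≤ C * (2 * E'.card) := by
    calc _ ≤ (θ n * c s w n) ^ r * ∑' g, (cv (D.K n) (D.A n) (fun u => (x u : ℝ≥0∞)) g) ^ r := mul_le_mul' le_rfl h4
      _ ≤ C * ∑' k, (x k : ℝ≥0∞) ^ r := h3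
      _ ≤ C * (2 * E'.card) := by
        rw [h2]
        refine mul_le_mul' le_rfl ?_
        exact_mod_cast hcard
  have h6 : (θ n * c s w n) ^ r * ((D.K n).card * ((D.A n).card : ℝ≥0∞) ^ r) ≤ 2 * C := by
    rw [← ENNReal.mul_le_mul_iff_left hE' (ENNReal.natCast_ne_top _)]
    calc _ = (θ n * c s w n) ^ r * ((D.K n).card * (E'.card * ((D.A n).card : ℝ≥0∞) ^ r)) := by ring
      _ ≤ C * (2 * E'.card) := h5
      _ = _ := by ring
  rw [ENNReal.mul_rpow_of_nonneg _ _ (by linarith : (0 : ℝ) ≤ r), θpow, cpow, cardK_eq, cardA_eq,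
    ← ENNReal.rpow_mul, radd, radd, radd] at h6
  refine absurd (hn.trans_le ?_) (not_lt.2 h6)
  refine rmono (le_of_eq ?_)
  ring

open Classical in
theorem not_bdd_star (D : Data G) {s w r : ℝ} (hw : w = 0 ∨ w = 2) (hr1 : 1 ≤ r)
    (hok : ¬ Ok (r - 1 - r / s) w) : ¬ Bdd r (fun g => Fker D s w g⁻¹) := by
  rintro ⟨C, hC, h⟩
  have hr0 : (0 : ℝ) ≤ r := by linarith
  obtain ⟨n, hn⟩ := growth' hok hw (by linarith : (0 : ℝ) < r)
    (C := 2 * (C * (D.M : ℝ≥0∞) ^ (r - 1))) (ENNReal.mul_ne_top (by norm_num)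
      (ENNReal.mul_ne_top hC (ENNReal.rpow_ne_top_of_nonneg (by linarith) (by simp))))
  obtain ⟨E, E', hE, hcard, hEA, hKE⟩ := D.fol' n
  set K := D.K n with hK
  set x : G →₀ ℝ≥0 := Finsupp.onFinset (K.biUnion fun k => E.image (k * ·))
    (fun g => ∑ k ∈ K, if k⁻¹ * g ∈ E then 1 else 0) (by
    intro a ha
    obtain ⟨k, hk, hk2⟩ := Finset.exists_ne_zero_of_sum_ne_zero ha
    have hk3 : k⁻¹ * a ∈ E := by
      by_contra hcon
      simp [hcon] at hk2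
    exact Finset.mem_biUnion.2 ⟨k, hk, Finset.mem_image.2 ⟨k⁻¹ * a, hk3, by simp⟩⟩) with hx
  have hxE : ∀ u, (x u : ℝ≥0∞) = ∑ k ∈ K, if k⁻¹ * u ∈ E then (1 : ℝ≥0∞) else 0 := by
    intro u
    simp only [hx, Finsupp.onFinset_apply, ENNReal.ofNNReal_finsetSum]
    refine Finset.sum_congr rfl fun k _ => ?_
    split_ifs <;> simp
  have h1 := h x
  simp_rw [convs_eq] at h1
  have h2 : ∑' k, (x k : ℝ≥0∞) ^ r ≤ (D.M : ℝ≥0∞) ^ (r - 1) * (K.card * E.card) := by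
    calc ∑' g, (x g : ℝ≥0∞) ^ r ≤ ∑' g, (D.M : ℝ≥0∞) ^ (r - 1) * ∑ k ∈ K, (if k⁻¹ * g ∈ E then (1 : ℝ≥0∞) else 0) := by
          refine ENNReal.tsum_le_tsum fun g => ?_
          rw [hxE]
          refine (pow_mean_sparse K _ D.M hr1 fun t ht hne => hKE g t ht fun k hk => ?_).trans
            (mul_le_mul' le_rfl (Finset.sum_le_sum fun k _ => ?_))
          · by_contra hcon
            exact hne k hk (by simp [hcon])
          · split_ifs
            · simp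
            · rw [ENNReal.zero_rpow_of_pos (by linarith)]
      _ = (D.M : ℝ≥0∞) ^ (r - 1) * ∑ k ∈ K, ∑' u, (if u ∈ E then (1 : ℝ≥0∞) else 0) := by
          rw [ENNReal.tsum_mul_left, tsum_sum_comm]
          congr 1
          refine Finset.sum_congr rfl fun k _ => ?_
          exact tsum_mulLeft k⁻¹ (fun g => if g ∈ E then (1 : ℝ≥0∞) else 0)
      _ = _ := by
          have : ∑' u, (if u ∈ E then (1 : ℝ≥0∞) else 0) = E.card := by
            rw [tsum_eq_sum (s := E) (fun b hb => by simp [hb])]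
            simp
          rw [this, Finset.sum_const, nsmul_eq_mul]
  have h3 := (block_le hr0 s w (fun n g => cvs (D.K n) (D.A n) (fun u => (x u : ℝ≥0∞)) g) n).trans h1
  have hx1 : ∀ k ∈ K, ∀ u ∈ E, (1 : ℝ≥0∞) ≤ x (k * u) := by
    intro k hk u hu
    rw [hxE]
    calc (1 : ℝ≥0∞) = if k⁻¹ * (k * u) ∈ E then (1 : ℝ≥0∞) else 0 := by simp [hu]
      _ ≤ ∑ k' ∈ K, if k'⁻¹ * (k * u) ∈ E then (1 : ℝ≥0∞) else 0 :=
        Finset.single_le_sum (f := fun k' => if k'⁻¹ * (k * u) ∈ E then (1 : ℝ≥0∞) else 0)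
          (fun _ _ => zero_le) hk
  have h4 := cvs_lower K (D.A n) E E' hEA (fun u => (x u : ℝ≥0∞)) hx1 hr0
  have hE' : (E'.card : ℝ≥0∞) ≠ 0 := by
    have : 0 < E.card := Finset.card_pos.2 hE
    have : 0 < E'.card := by omega
    exact_mod_cast this.ne'
  have hKc : (K.card : ℝ≥0∞) ≠ 0 := by
    rw [hK, D.cardK]
    positivity
  have h5 : (θ n * c s w n) ^ r * (E'.card * (((D.A n).card : ℝ≥0∞) * K.card) ^ r) ≤
      C * ((D.M : ℝ≥0∞) ^ (r - 1) * (K.card * (2 * E'.card))) := by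
    calc _ ≤ (θ n * c s w n) ^ r * ∑' g, (cvs K (D.A n) (fun u => (x u : ℝ≥0∞)) g) ^ r := mul_le_mul' le_rfl h4
      _ ≤ C * ∑' k, (x k : ℝ≥0∞) ^ r := h3
      _ ≤ C * ((D.M : ℝ≥0∞) ^ (r - 1) * (K.card * E.card)) := mul_le_mul' le_rfl h2
      _ ≤ _ := by
        refine mul_le_mul' le_rfl (mul_le_mul' le_rfl (mul_le_mul' le_rfl ?_))
        exact_mod_cast hcard
  have hKr : (K.card : ℝ≥0∞) ^ r = (K.card : ℝ≥0∞) ^ (r - 1) * K.card := by
    conv_rhs => rw [← ENNReal.rpow_one (K.card : ℝ≥0∞), ← ENNReal.rpow_mul, one_mul]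
    rw [← ENNReal.rpow_add _ _ hKc (ENNReal.natCast_ne_top _)]
    congr 1
    ring
  have h6 : (θ n * c s w n) ^ r * (((D.A n).card : ℝ≥0∞) ^ r * (K.card : ℝ≥0∞) ^ (r - 1)) ≤
      2 * (C * (D.M : ℝ≥0∞) ^ (r - 1)) := by
    rw [← ENNReal.mul_le_mul_iff_left hE' (ENNReal.natCast_ne_top _),
      ← ENNReal.mul_le_mul_iff_left hKc (ENNReal.natCast_ne_top _)]
    calc _ = (θ n * c s w n) ^ r * (E'.card * (((D.A n).card : ℝ≥0∞) * K.card) ^ r) := by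
          rw [ENNReal.mul_rpow_of_nonneg ((D.A n).card : ℝ≥0∞) (K.card : ℝ≥0∞) hr0, hKr]
          ring
      _ ≤ _ := h5
      _ = _ := by ring
  rw [ENNReal.mul_rpow_of_nonneg _ _ hr0, θpow, cpow, hK, cardK_eq, cardA_eq,
    ← ENNReal.rpow_mul, ← ENNReal.rpow_mul, radd, radd, radd] at h6
  refine absurd (hn.trans_le ?_) (not_lt.2 h6)
  refine rmono (le_of_eq ?_)
  ring

end Pool.Agent.V8H98.CVP
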