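import Mathlib
import Pool.Agent.V8H98.CVP.Lower

set_option autoImplicit false

namespace Pool.Agent.V8H98.CVP

open scoped ENNReal NNReal
open Finset

variable {G : Type*} [Group G]

/-- `F` realises the set `U` of exponents: among the exponents `r > 1`, the convolution by `F` is bounded
exactly for `r ∈ U`, and the convolution by `g ↦ F g⁻¹` exactly when the conjugate exponent is in `U` -/
def Realizes (F : G → ℝ≥0∞) (U : Set ℝ) : Prop :=
  (∀ g, F g ≠ ⊤) ∧ ∀ r : ℝ, 1 < r → (Bdd r F ↔ r ∈ U) ∧ (Bdd r (fun g => F g⁻¹) ↔ r / (r - 1) ∈ U)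

lemma conj_gt {r : ℝ} (hr : 1 < r) : 1 < r / (r - 1) := by
  rw [lt_div_iff₀ (by linarith)]
  linarith

lemma conj_conj {r : ℝ} (hr : 1 < r) : r / (r - 1) / (r / (r - 1) - 1) = r := by
  have h1 : r - 1 ≠ 0 := by linarith
  have h2 : r / (r - 1) - 1 = 1 / (r - 1) := by
    field_simp
    ring
  rw [h2]
  field_simp

lemma realizes_Ici (D : Data G) {s : ℝ} (hs : 1 < s) : Realizes (Fker D s 0) (Set.Ici s) := by
  have hs0 : 0 < s := by linarith
  refine ⟨Fker_ne_top D 0 hs0, fun r hr => ⟨?_, ?_⟩⟩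
  · have key : Ok (1 - r / s) 0 ↔ r ∈ Set.Ici s := by
      unfold Ok
      rw [Set.mem_Ici]
      constructor
      · rintro (h | ⟨h, -⟩)
        · have : 1 < r / s := by linarith
          rw [lt_div_iff₀ hs0] at this
          linarith
        · have : 1 = r / s := by linarith
          rw [eq_div_iff hs0.ne'] at this
          linarith
      · intro h
        have : 1 ≤ r / s := by rwa [le_div_iff₀ hs0, one_mul]
        rcases this.lt_or_eq with h1 | h1
        · left; linarith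
        · right; exact ⟨by linarith, rfl⟩
    rw [← key]
    constructor
    · intro hb
      by_contra hcon
      exact not_bdd D (Or.inl rfl) hr.le hcon hb
    · exact fun h => upper D hs0 le_rfl hr h
  · have hr1 : 0 < r - 1 := by linarith
    have key : Ok (r - 1 - r / s) 0 ↔ r / (r - 1) ∈ Set.Ici s := by
      unfold Ok
      rw [Set.mem_Ici, le_div_iff₀ hr1]
      constructor
      · rintro (h | ⟨h, -⟩)
        · have : r - 1 < r / s := by linarith
          rw [lt_div_iff₀ hs0] at this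
          linarith
        · have : r - 1 = r / s := by linarith
          rw [eq_div_iff hs0.ne'] at this
          linarith
      · intro h
        have : r - 1 ≤ r / s := by
          rw [le_div_iff₀ hs0]
          linarith
        rcases this.lt_or_eq with h1 | h1
        · left; linarith
        · right; exact ⟨by linarith, rfl⟩
    rw [← key]
    constructor
    · intro hb
      by_contra hcon
      exact not_bdd_star D (Or.inl rfl) hr.le hcon hb
    · exact fun h => upper_star D hs0 le_rfl hr h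

lemma realizes_Ioi (D : Data G) {s : ℝ} (hs : 1 < s) : Realizes (Fker D s 2) (Set.Ioi s) := by
  have hs0 : 0 < s := by linarith
  refine ⟨Fker_ne_top D 2 hs0, fun r hr => ⟨?_, ?_⟩⟩
  · have key : Ok (1 - r / s) 2 ↔ r ∈ Set.Ioi s := by
      unfold Ok
      rw [Set.mem_Ioi]
      constructor
      · rintro (h | ⟨h, h2⟩)
        · have : 1 < r / s := by linarith
          rw [lt_div_iff₀ hs0] at this
          linarith
        · norm_num at h2
      · intro h
        have : 1 < r / s := by rwa [lt_div_iff₀ hs0, one_mul]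
        left; linarith
    rw [← key]
    constructor
    · intro hb
      by_contra hcon
      exact not_bdd D (Or.inr rfl) hr.le hcon hb
    · exact fun h => upper D hs0 (by norm_num) hr h
  · have hr1 : 0 < r - 1 := by linarith
    have key : Ok (r - 1 - r / s) 2 ↔ r / (r - 1) ∈ Set.Ioi s := by
      unfold Ok
      rw [Set.mem_Ioi, lt_div_iff₀ hr1]
      constructor
      · rintro (h | ⟨h, h2⟩)
        · have : r - 1 < r / s := by linarith
          rw [lt_div_iff₀ hs0] at this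
          linarith
        · norm_num at h2
      · intro h
        have : r - 1 < r / s := by
          rw [lt_div_iff₀ hs0]
          linarith
        left; linarith
    rw [← key]
    constructor
    · intro hb
      by_contra hcon
      exact not_bdd_star D (Or.inr rfl) hr.le hcon hb
    · exact fun h => upper_star D hs0 (by norm_num) hr h

lemma realizes_congr {F : G → ℝ≥0∞} {U V : Set ℝ} (h : Realizes F U) (hUV : ∀ r, 1 < r → (r ∈ U ↔ r ∈ V)) :
    Realizes F V :=
  ⟨h.1, fun r hr => ⟨(h.2 r hr).1.trans (hUV r hr), (h.2 r hr).2.trans (hUV _ (conj_gt hr))⟩⟩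

/-- the dual set -/
def dual (U : Set ℝ) : Set ℝ := {r | r / (r - 1) ∈ U}

lemma realizes_inv {F : G → ℝ≥0∞} {U : Set ℝ} (h : Realizes F U) : Realizes (fun g => F g⁻¹) (dual U) := by
  refine ⟨fun g => h.1 g⁻¹, fun r hr => ⟨(h.2 r hr).2, ?_⟩⟩
  simp only [inv_inv, dual, Set.mem_ofPred_eq]
  rw [conj_conj hr]
  exact (h.2 r hr).1

lemma realizes_univ : Realizes (fun _ : G => (0 : ℝ≥0∞)) Set.univ := by
  have : ∀ r : ℝ, 1 < r → Bdd r (fun _ : G => (0 : ℝ≥0∞)) := by
    intro r hr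
    refine ⟨0, by simp, fun x => ?_⟩
    simp only [zero_mul, Finset.sum_const_zero]
    rw [ENNReal.zero_rpow_of_pos (by linarith)]
    simp
  exact ⟨fun _ => by simp, fun r hr => ⟨by simpa using this r hr, by simpa using this r hr⟩⟩

lemma Bdd.mono {r : ℝ} (hr : 0 ≤ r) {F F' : G → ℝ≥0∞} (h : Bdd r F') (hF : ∀ g, F g ≤ F' g) : Bdd r F := by
  obtain ⟨C, hC, h⟩ := h
  refine ⟨C, hC, fun x => le_trans (ENNReal.tsum_le_tsum fun g => ?_) (h x)⟩
  exact ENNReal.rpow_le_rpow (Finset.sum_le_sum fun k _ => mul_le_mul' (hF _) le_rfl) hr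

lemma Bdd.add {r : ℝ} (hr : 1 ≤ r) {F F' : G → ℝ≥0∞} (h : Bdd r F) (h' : Bdd r F') :
    Bdd r (fun g => F g + F' g) := by
  obtain ⟨C, hC, h⟩ := h
  obtain ⟨C', hC', h'⟩ := h'
  refine ⟨2 ^ (r - 1) * (C + C'), ENNReal.mul_ne_top (r_ne_top _) (ENNReal.add_ne_top.2 ⟨hC, hC'⟩), fun x => ?_⟩
  calc ∑' g, (∑ k ∈ x.support, (F (g * k⁻¹) + F' (g * k⁻¹)) * x k) ^ r
      ≤ ∑' g, 2 ^ (r - 1) * ((∑ k ∈ x.support, F (g * k⁻¹) * x k) ^ r + (∑ k ∈ x.support, F' (g * k⁻¹) * x k) ^ r) := by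
        refine ENNReal.tsum_le_tsum fun g => ?_
        simp_rw [add_mul, Finset.sum_add_distrib]
        exact ENNReal.rpow_add_le_mul_rpow_add_rpow _ _ hr
    _ = 2 ^ (r - 1) * (∑' g, (∑ k ∈ x.support, F (g * k⁻¹) * x k) ^ r +
        ∑' g, (∑ k ∈ x.support, F' (g * k⁻¹) * x k) ^ r) := by
        rw [ENNReal.tsum_mul_left, ENNReal.tsum_add]
    _ ≤ 2 ^ (r - 1) * (C * ∑' k, (x k : ℝ≥0∞) ^ r + C' * ∑' k, (x k : ℝ≥0∞) ^ r) :=
        mul_le_mul' le_rfl (add_le_add (h x) (h' x))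
    _ = _ := by ring

lemma bdd_add_iff {r : ℝ} (hr : 1 ≤ r) {F F' : G → ℝ≥0∞} :
    Bdd r (fun g => F g + F' g) ↔ Bdd r F ∧ Bdd r F' :=
  ⟨fun h => ⟨h.mono (by linarith) fun _ => le_self_add, h.mono (by linarith) fun _ => le_add_self⟩,
    fun h => h.1.add hr h.2⟩

lemma realizes_inter {F F' : G → ℝ≥0∞} {U U' : Set ℝ} (h : Realizes F U) (h' : Realizes F' U') :
    Realizes (fun g => F g + F' g) (U ∩ U') := by
  refine ⟨fun g => ENNReal.add_ne_top.2 ⟨h.1 g, h'.1 g⟩, fun r hr => ⟨?_, ?_⟩⟩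
  · rw [bdd_add_iff hr.le, (h.2 r hr).1, (h'.2 r hr).1]
    rfl
  · rw [bdd_add_iff (F := fun g => F g⁻¹) (F' := fun g => F' g⁻¹) hr.le, (h.2 r hr).2, (h'.2 r hr).2]
    rfl

lemma exists_empty (D : Data G) : ∃ F : G → ℝ≥0∞, Realizes F ∅ := by
  refine ⟨_, realizes_congr (realizes_inter (realizes_Ici D (s := 3) (by norm_num))
    (realizes_inv (realizes_Ici D (s := 3) (by norm_num)))) fun r hr => ?_⟩
  simp only [dual, Set.mem_inter_iff, Set.mem_Ici, Set.mem_ofPred_eq, Set.mem_empty_iff_false, iff_false, not_and,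
    not_le]
  intro h3
  rw [div_lt_iff₀ (by linarith)]
  linarith

lemma exists_upper (D : Data G) {U : Set ℝ} (hU : ∀ x ∈ U, ∀ y, x ≤ y → y ∈ U) :
    ∃ F : G → ℝ≥0∞, Realizes F U := by
  set V : Set ℝ := U ∩ Set.Ioi 1 with hV
  rcases V.eq_empty_or_nonempty with h | h
  · obtain ⟨F, hF⟩ := exists_empty D
    refine ⟨F, realizes_congr hF fun r hr => ?_⟩
    constructor
    · intro h'; exact h'.elim
    · intro h'
      have : r ∈ V := ⟨h', hr⟩
      rw [h] at this
      exact this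
  · have hb : BddBelow V := ⟨1, fun x hx => hx.2.le⟩
    set s := sInf V with hs
    have hs1 : 1 ≤ s := le_csInf h fun x hx => hx.2.le
    have hgt : ∀ r, s < r → r ∈ U := by
      intro r hr
      obtain ⟨v, hv, hvr⟩ := exists_lt_of_csInf_lt h hr
      exact hU v hv.1 r hvr.le
    rcases hs1.lt_or_eq with h1 | h1
    · by_cases hsU : s ∈ U
      · refine ⟨_, realizes_congr (realizes_Ici D h1) fun r hr => ?_⟩
        rw [Set.mem_Ici]
        exact ⟨fun hr' => hU s hsU r hr', fun hr' => csInf_le hb ⟨hr', hr⟩⟩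
      · refine ⟨_, realizes_congr (realizes_Ioi D h1) fun r hr => ?_⟩
        rw [Set.mem_Ioi]
        refine ⟨fun hr' => hgt r hr', fun hr' => ?_⟩
        rcases (csInf_le hb ⟨hr', hr⟩ : s ≤ r).lt_or_eq with h2 | h2
        · exact h2
        · have h3 : s = r := h2
          exact absurd (h3.symm ▸ hr') hsU
    · refine ⟨_, realizes_congr realizes_univ fun r hr => ?_⟩
      exact ⟨fun _ => hgt r (by linarith), fun _ => trivial⟩

lemma conj_anti {x y : ℝ} (hx : 1 < x) (hxy : x ≤ y) : y / (y - 1) ≤ x / (x - 1) := by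
  rw [div_le_div_iff₀ (by linarith) (by linarith)]
  linarith

/-- every order-convex set of exponents is realised -/
theorem exists_ordConnected (D : Data G) {I : Set ℝ} (hI : I.OrdConnected) :
    ∃ F : G → ℝ≥0∞, Realizes F I := by
  set J : Set ℝ := I ∩ Set.Ioi 1 with hJ
  obtain ⟨F₁, hF₁⟩ := exists_upper D (U := {r | ∃ i ∈ J, i ≤ r}) (by
    rintro x ⟨i, hi, hix⟩ y hxy
    exact ⟨i, hi, hix.trans hxy⟩)
  obtain ⟨F₂, hF₂⟩ := exists_upper D (U := {r | ∃ i ∈ J, i / (i - 1) ≤ r}) (by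
    rintro x ⟨i, hi, hix⟩ y hxy
    exact ⟨i, hi, hix.trans hxy⟩)
  refine ⟨_, realizes_congr (realizes_inter hF₁ (realizes_inv hF₂)) fun r hr => ?_⟩
  simp only [dual, Set.mem_inter_iff, Set.mem_ofPred_eq]
  constructor
  · rintro ⟨⟨i, hi, hir⟩, ⟨j, hj, hjr⟩⟩
    have : r ≤ j := by
      have h := conj_anti (conj_gt hj.2) hjr
      rwa [conj_conj hr, conj_conj hj.2] at h
    exact hI.out hi.1 hj.1 ⟨hir, this⟩
  · intro h
    exact ⟨⟨r, ⟨h, hr⟩, le_rfl⟩, ⟨r, ⟨h, hr⟩, le_rfl⟩⟩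

theorem main_data (D : Data G) {I : Set ℝ} (hI : I.OrdConnected) :
    ∃ f : G → ℝ, (∀ g, 0 ≤ f g) ∧ ∀ p : ℝ, 1 < p →
      (IsConvolver p (fun g => (f g : ℂ)) ↔ p ∈ I) ∧
      (IsConvolver p (fun g => starRingEnd ℂ (f g⁻¹ : ℂ)) ↔ p / (p - 1) ∈ I) := by
  obtain ⟨F, hF, h⟩ := exists_ordConnected D hI
  refine ⟨fun g => (F g).toReal, fun g => ENNReal.toReal_nonneg, fun p hp => ⟨?_, ?_⟩⟩
  · rw [isConvolver_iff (by linarith) hF]
    exact (h p hp).1
  · have h1 := isConvolver_iff (p := p) (by linarith) (F := fun g => F g⁻¹) (fun g => hF g⁻¹)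
    have e : (fun g => starRingEnd ℂ (((F g⁻¹).toReal : ℝ) : ℂ)) = fun g => (((fun g => F g⁻¹) g).toReal : ℂ) := by
      funext g
      simp
    rw [e, h1]
    exact (h p hp).2

end Pool.Agent.V8H98.CVP
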