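import Mathlib
import Pool.Agent.V8H98.CVP.Interval

set_option autoImplicit false

namespace Pool.Agent.V8H98.CVP

open Finset Classical

/-- Følner's condition (amenability of a discrete group) -/
def Folner (H : Type*) [Group H] : Prop :=
  ∀ (S : Finset H) (n : ℕ), ∃ D : Finset H, D.Nonempty ∧ ∀ s ∈ S, n * (D.filter (fun x => s * x ∉ D)).card ≤ D.card

/-- The number of right cosets of `H` meeting the finite set `E`. -/
noncomputable def rightCosets {G : Type*} [Group G] (H : Subgroup G) (E : Finset G) : ℕ :=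
  (E.image (fun g => (Quotient.mk (QuotientGroup.rightRel H) g))).card

variable {G : Type*} [Group G]

/-- A set meeting the cosets of `H₁` in at most `M` points, with complement meeting the cosets of `H₂` in at most
`M` points. -/
def Splits (H₁ H₂ : Subgroup G) (B : Set G) (M : ℕ) : Prop :=
  (∀ (y : G) (t : Finset G), (∀ h ∈ t, h ∈ H₁ ∧ h * y ∈ B) → t.card ≤ M) ∧
  (∀ (y : G) (t : Finset G), (∀ h ∈ t, h ∈ H₂ ∧ h * y ∉ B) → t.card ≤ M)

lemma folner_sets {H : Type*} [Group H] (hH : Folner H) (A : Finset H) :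
    ∃ D D' : Finset H, D.Nonempty ∧ D.card ≤ 2 * D'.card ∧ ∀ u ∈ D', ∀ a ∈ A, a * u ∈ D := by
  obtain ⟨D, hD, h⟩ := hH A (2 * A.card)
  refine ⟨D, D.filter (fun u => ∀ a ∈ A, a * u ∈ D), hD, ?_, fun u hu => (Finset.mem_filter.1 hu).2⟩
  have hsub : D.filter (fun u => ¬ ∀ a ∈ A, a * u ∈ D) ⊆ A.biUnion fun a => D.filter (fun x => a * x ∉ D) := by
    intro u hu
    obtain ⟨hu1, hu2⟩ := Finset.mem_filter.1 hu
    push Not at hu2
    obtain ⟨a, ha, ha2⟩ := hu2
    exact Finset.mem_biUnion.2 ⟨a, ha, Finset.mem_filter.2 ⟨hu1, ha2⟩⟩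
  have h1 : 2 * (D.filter (fun u => ¬ ∀ a ∈ A, a * u ∈ D)).card ≤ D.card := by
    rcases Nat.eq_zero_or_pos A.card with h0 | h0
    · have : A = ∅ := Finset.card_eq_zero.1 h0
      subst this
      simp
    · have h2 := (Finset.card_le_card hsub).trans Finset.card_biUnion_le
      have h3 : 2 * A.card * ∑ a ∈ A, (D.filter (fun x => a * x ∉ D)).card ≤ A.card * D.card := by
        rw [Finset.mul_sum]
        calc ∑ a ∈ A, 2 * A.card * (D.filter (fun x => a * x ∉ D)).card ≤ ∑ a ∈ A, D.card :=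
              Finset.sum_le_sum fun a ha => h a ha
          _ = A.card * D.card := by simp
      have h4 : 2 * A.card * (D.filter (fun u => ¬ ∀ a ∈ A, a * u ∈ D)).card ≤ A.card * D.card :=
        (Nat.mul_le_mul_left _ h2).trans h3
      have h5 : A.card * (2 * (D.filter (fun u => ¬ ∀ a ∈ A, a * u ∈ D)).card) ≤ A.card * D.card := by
        calc _ = 2 * A.card * (D.filter (fun u => ¬ ∀ a ∈ A, a * u ∈ D)).card := by ring
          _ ≤ _ := h4
      exact Nat.le_of_mul_le_mul_left h5 h0
  have h2 := Finset.card_filter_add_card_filter_not (s := D) (fun u => ∀ a ∈ A, a * u ∈ D)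
  omega

lemma card_inter_le {H₁ H₂ : Subgroup G} {B : Set G} {M : ℕ} (h : Splits H₁ H₂ B M) (t : Finset G)
    (ht : ∀ g ∈ t, g ∈ H₁ ∧ g ∈ H₂) : t.card ≤ 2 * M := by
  have h1 := h.1 1 (t.filter (fun g => g ∈ B)) (fun g hg => by
    obtain ⟨hg1, hg2⟩ := Finset.mem_filter.1 hg
    exact ⟨(ht g hg1).1, by simpa using hg2⟩)
  have h2 := h.2 1 (t.filter (fun g => ¬ g ∈ B)) (fun g hg => by
    obtain ⟨hg1, hg2⟩ := Finset.mem_filter.1 hg
    exact ⟨(ht g hg1).2, by simpa using hg2⟩)
  have h3 := Finset.card_filter_add_card_filter_not (s := t) (fun g => g ∈ B)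
  omega

theorem exists_data {H₁ H₂ : Subgroup G} {B : Set G} {M : ℕ} (h : Splits H₁ H₂ B M) (hi₁ : Infinite H₁)
    (hi₂ : Infinite H₂) (hF : Folner H₂) : Nonempty (Data G) := by
  have hK : ∀ n, ∃ s : Finset H₁, s.card = 4 ^ (n ^ 2) := fun n => Infinite.exists_subset_card_eq H₁ _
  have hA : ∀ n, ∃ s : Finset H₂, s.card = 4 ^ (n ^ 3) := fun n => Infinite.exists_subset_card_eq H₂ _
  choose K' hK' using hK
  choose A' hA' using hA
  have hmem1 : ∀ n, ∀ k ∈ (K' n).map (Function.Embedding.subtype _), k ∈ H₁ := by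
    intro n k hk
    obtain ⟨k', _, rfl⟩ := Finset.mem_map.1 hk
    exact k'.2
  have hmem2 : ∀ n, ∀ k ∈ (A' n).map (Function.Embedding.subtype _), k ∈ H₂ := by
    intro n k hk
    obtain ⟨k', _, rfl⟩ := Finset.mem_map.1 hk
    exact k'.2
  refine ⟨⟨B, 2 * M, fun n => (K' n).map (Function.Embedding.subtype _), fun n => (A' n).map (Function.Embedding.subtype _),
    fun n => by rw [Finset.card_map, hK'], fun n => by rw [Finset.card_map, hA'], ?_, ?_, ?_, ?_⟩⟩
  · intro n y t ht hk
    have := h.1 y (t.image (·⁻¹)) (fun g hg => by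
      obtain ⟨k, hk1, rfl⟩ := Finset.mem_image.1 hg
      exact ⟨H₁.inv_mem (hmem1 n k (ht hk1)), hk k hk1⟩)
    rw [Finset.card_image_of_injective _ inv_injective] at this
    omega
  · intro n z t ht ha
    have := h.2 z t (fun a ha1 => ⟨hmem2 n a (ht ha1), ha a ha1⟩)
    omega
  · intro n
    obtain ⟨D, D', hD, hc, hu⟩ := folner_sets hF ((A' n).image (·⁻¹))
    refine ⟨D.map (Function.Embedding.subtype _), D'.map (Function.Embedding.subtype _), hD.map, ?_, ?_⟩
    · rw [Finset.card_map, Finset.card_map]; exact hc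
    · intro u hu' a ha
      obtain ⟨u', hu1, rfl⟩ := Finset.mem_map.1 hu'
      obtain ⟨a', ha1, rfl⟩ := Finset.mem_map.1 ha
      exact Finset.mem_map.2 ⟨a'⁻¹ * u', hu u' hu1 a'⁻¹ (Finset.mem_image_of_mem _ ha1), rfl⟩
  · intro n
    obtain ⟨D, D', hD, hc, hu⟩ := folner_sets hF (A' n)
    refine ⟨D.map (Function.Embedding.subtype _), D'.map (Function.Embedding.subtype _), hD.map, ?_, ?_, ?_⟩
    · rw [Finset.card_map, Finset.card_map]; exact hc
    · intro u hu' a ha
      obtain ⟨u', hu1, rfl⟩ := Finset.mem_map.1 hu'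
      obtain ⟨a', ha1, rfl⟩ := Finset.mem_map.1 ha
      exact Finset.mem_map.2 ⟨a' * u', hu u' hu1 a' ha1, rfl⟩
    · intro g t ht hk
      rcases t.eq_empty_or_nonempty with rfl | ⟨k₀, hk₀⟩
      · simp
      · have hD2 : ∀ k ∈ t, k⁻¹ * g ∈ H₂ := by
          intro k hk1
          obtain ⟨d, _, hd⟩ := Finset.mem_map.1 (hk k hk1)
          rw [← hd]
          exact d.2
        have := card_inter_le h (t.image (fun k => k₀⁻¹ * k)) (fun x hx => by
          obtain ⟨k, hk1, rfl⟩ := Finset.mem_image.1 hx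
          refine ⟨H₁.mul_mem (H₁.inv_mem (hmem1 n k₀ (ht hk₀))) (hmem1 n k (ht hk1)), ?_⟩
          have h1 := H₂.mul_mem (hD2 k₀ hk₀) (H₂.inv_mem (hD2 k hk1))
          have h2 : k₀⁻¹ * g * (k⁻¹ * g)⁻¹ = k₀⁻¹ * k := by group
          rwa [h2] at h1)
        rwa [Finset.card_image_of_injective _ (mul_right_injective _)] at this

/-- Hall's theorem: a sparse coset graph splits. -/
theorem splits_of_sparse {H₁ H₂ : Subgroup G} {M : ℕ}
    (h : ∀ E : Finset G, E.card ≤ M * (rightCosets H₁ E + rightCosets H₂ E)) : ∃ B : Set G, Splits H₁ H₂ B M := by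
  let q₁ : G → Quotient (QuotientGroup.rightRel H₁) := fun g => Quotient.mk _ g
  let q₂ : G → Quotient (QuotientGroup.rightRel H₂) := fun g => Quotient.mk _ g
  let t : G → Finset ((Quotient (QuotientGroup.rightRel H₁) ⊕ Quotient (QuotientGroup.rightRel H₂)) × Fin M) :=
    fun g => {Sum.inl (q₁ g), Sum.inr (q₂ g)} ×ˢ Finset.univ
  have hall : ∀ s : Finset G, s.card ≤ (s.biUnion t).card := by
    intro s
    have e : s.biUnion t = ((s.image q₁).map ⟨Sum.inl, Sum.inl_injective⟩ ∪ (s.image q₂).map ⟨Sum.inr, Sum.inr_injective⟩) ×ˢ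
        (Finset.univ : Finset (Fin M)) := by
      ext ⟨a, b⟩
      simp only [t, Finset.mem_biUnion, Finset.mem_product, Finset.mem_insert, Finset.mem_singleton,
        Finset.mem_univ, and_true, Finset.mem_union, Finset.mem_map, Finset.mem_image,
        Function.Embedding.coeFn_mk]
      constructor
      · rintro ⟨g, hg, rfl | rfl⟩
        · exact Or.inl ⟨q₁ g, ⟨g, hg, rfl⟩, rfl⟩
        · exact Or.inr ⟨q₂ g, ⟨g, hg, rfl⟩, rfl⟩
      · rintro (⟨_, ⟨g, hg, rfl⟩, rfl⟩ | ⟨_, ⟨g, hg, rfl⟩, rfl⟩)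
        · exact ⟨g, hg, Or.inl rfl⟩
        · exact ⟨g, hg, Or.inr rfl⟩
    rw [e, Finset.card_product, Finset.card_union_of_disjoint, Finset.card_map, Finset.card_map, Finset.card_univ,
      Fintype.card_fin, mul_comm]
    · exact h s
    · rw [Finset.disjoint_left]
      intro a ha hb
      obtain ⟨x, _, rfl⟩ := Finset.mem_map.1 ha
      obtain ⟨y, _, hy⟩ := Finset.mem_map.1 hb
      simp at hy
  obtain ⟨f, hf, hft⟩ := (Finset.all_card_le_biUnion_card_iff_exists_injective t).1 hall
  have hval : ∀ g, (f g).1 = Sum.inl (q₁ g) ∨ (f g).1 = Sum.inr (q₂ g) := by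
    intro g
    have := hft g
    simpa [t, Finset.mem_product] using this
  refine ⟨{g | (f g).1 = Sum.inl (q₁ g)}, ?_, ?_⟩
  · intro y s hs
    have hinj : Set.InjOn (fun h : G => (f (h * y)).2) s := by
      intro a ha b hb hab
      have h1 : (f (a * y)).1 = (f (b * y)).1 := by
        rw [(hs a ha).2, (hs b hb).2]
        congr 1
        refine Quotient.sound ?_
        change (QuotientGroup.rightRel H₁) _ _
        rw [QuotientGroup.rightRel_apply]
        have : b * y * (a * y)⁻¹ = b * a⁻¹ := by group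
        rw [this]
        exact H₁.mul_mem (hs b hb).1 (H₁.inv_mem (hs a ha).1)
      exact mul_right_cancel (hf (Prod.ext h1 hab))
    calc s.card = (s.image (fun h : G => (f (h * y)).2)).card := (Finset.card_image_of_injOn hinj).symm
      _ ≤ Fintype.card (Fin M) := Finset.card_le_univ _
      _ = M := Fintype.card_fin M
  · intro y s hs
    have hval2 : ∀ a ∈ s, (f (a * y)).1 = Sum.inr (q₂ (a * y)) := by
      intro a ha
      rcases hval (a * y) with h' | h'
      · exact absurd h' (hs a ha).2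
      · exact h'
    have hinj : Set.InjOn (fun h : G => (f (h * y)).2) s := by
      intro a ha b hb hab
      have h1 : (f (a * y)).1 = (f (b * y)).1 := by
        rw [hval2 a ha, hval2 b hb]
        congr 1
        refine Quotient.sound ?_
        change (QuotientGroup.rightRel H₂) _ _
        rw [QuotientGroup.rightRel_apply]
        have : b * y * (a * y)⁻¹ = b * a⁻¹ := by group
        rw [this]
        exact H₂.mul_mem (hs b hb).1 (H₂.inv_mem (hs a ha).1)
      exact mul_right_cancel (hf (Prod.ext h1 hab))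
    calc s.card = (s.image (fun h : G => (f (h * y)).2)).card := (Finset.card_image_of_injOn hinj).symm
      _ ≤ Fintype.card (Fin M) := Finset.card_le_univ _
      _ = M := Fintype.card_fin M

end Pool.Agent.V8H98.CVP
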