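import Mathlib
import Pool.Agent.V8H98.CVP.Exist

set_option autoImplicit false

namespace Pool.Agent.V8H98.CVP

open Finset Classical Monoid

lemma folner_of_mulEquiv {H H' : Type*} [Group H] [Group H'] (e : H ≃* H') (hH : Folner H) : Folner H' := by
  intro S n
  obtain ⟨D, hD, h⟩ := hH (S.map e.symm.toEquiv.toEmbedding) n
  refine ⟨D.map e.toEquiv.toEmbedding, hD.map, fun s hs => ?_⟩
  have h1 := h (e.symm s) (Finset.mem_map.2 ⟨s, hs, rfl⟩)
  have h2 : (D.map e.toEquiv.toEmbedding).filter (fun x => s * x ∉ D.map e.toEquiv.toEmbedding) =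
      (D.filter (fun x => e.symm s * x ∉ D)).map e.toEquiv.toEmbedding := by
    ext x
    simp only [Finset.mem_filter, Finset.mem_map, Equiv.coe_toEmbedding, MulEquiv.toEquiv_eq_coe,
      MulEquiv.coe_toEquiv]
    constructor
    · rintro ⟨⟨d, hd, rfl⟩, hx⟩
      refine ⟨d, ⟨hd, fun hcon => hx ⟨e.symm s * d, hcon, by simp⟩⟩, rfl⟩
    · rintro ⟨d, ⟨hd, hx⟩, rfl⟩
      refine ⟨⟨d, hd, rfl⟩, ?_⟩
      rintro ⟨d', hd', he⟩
      apply hx
      have : d' = e.symm s * d := by
        apply e.injective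
        rw [he]; simp
      rwa [← this]
  rw [h2, Finset.card_map, Finset.card_map]
  exact h1

lemma folner_int : Folner (Multiplicative ℤ) := by
  intro S n
  obtain ⟨m, hm⟩ : ∃ m : ℕ, ∀ s ∈ S, (Multiplicative.toAdd s).natAbs ≤ m :=
    ⟨S.sup (fun s => (Multiplicative.toAdd s).natAbs), fun s hs => Finset.le_sup (f := fun s => (Multiplicative.toAdd s).natAbs) hs⟩
  set N := n * m + 1 with hN
  refine ⟨(Finset.Ico (0 : ℤ) N).map Multiplicative.ofAdd.toEmbedding, ?_, fun s hs => ?_⟩
  · refine Finset.Nonempty.map ?_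
    rw [Finset.nonempty_Ico]
    omega
  · set a := Multiplicative.toAdd s with ha
    have hsub : ((Finset.Ico (0 : ℤ) N).map Multiplicative.ofAdd.toEmbedding).filter
        (fun x => s * x ∉ (Finset.Ico (0 : ℤ) N).map Multiplicative.ofAdd.toEmbedding) ⊆
        (if 0 ≤ a then Finset.Ico ((N : ℤ) - a) N else Finset.Ico 0 (-a)).map Multiplicative.ofAdd.toEmbedding := by
      intro x hx
      obtain ⟨hx1, hx2⟩ := Finset.mem_filter.1 hx
      obtain ⟨z, hz, rfl⟩ := Finset.mem_map.1 hx1
      have hz' := Finset.mem_Ico.1 hz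
      have h3 : ¬ (0 ≤ a + z ∧ a + z < N) := by
        intro hcon
        exact hx2 (Finset.mem_map.2 ⟨a + z, Finset.mem_Ico.2 hcon, by
          apply Multiplicative.toAdd.injective
          simp [ha]⟩)
      refine Finset.mem_map.2 ⟨z, ?_, rfl⟩
      split_ifs with h0
      · rw [Finset.mem_Ico]
        constructor
        · by_contra hcon
          exact h3 ⟨by omega, by omega⟩
        · exact hz'.2
      · rw [Finset.mem_Ico]
        refine ⟨hz'.1, ?_⟩
        by_contra hcon
        exact h3 ⟨by omega, by omega⟩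
    have hc := Finset.card_le_card hsub
    rw [Finset.card_map] at hc
    have hcard : (if 0 ≤ a then Finset.Ico ((N : ℤ) - a) N else Finset.Ico 0 (-a)).card ≤ m := by
      have := hm s hs
      split_ifs with h0
      · rw [Int.card_Ico]; omega
      · rw [Int.card_Ico]; omega
    rw [Finset.card_map, Int.card_Ico]
    have h6 : n * m ≤ ((N : ℤ) - 0).toNat := by omega
    refine le_trans (Nat.mul_le_mul_left n ?_) h6
    refine le_trans ?_ (hc.trans hcard)
    convert le_refl _

/-- the free group on one generator is infinite cyclic -/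
noncomputable def unitEquiv : FreeGroup Unit ≃* Multiplicative ℤ := by
  refine MonoidHom.toMulEquiv (FreeGroup.lift fun _ => Multiplicative.ofAdd 1)
    (zpowersHom (FreeGroup Unit) (FreeGroup.of ())) ?_ ?_
  · ext a
    cases a
    simp
  · ext
    simp

lemma folner_unit : Folner (FreeGroup Unit) := folner_of_mulEquiv unitEquiv.symm folner_int

section Word

variable {ι : Type*} {M : ι → Type*} [∀ i, Group (M i)] [DecidableEq ι] [∀ i, DecidableEq (M i)]

lemma fst_unique (i : ι) (m : M i) (v : CoprodI.Word M) (hv : v.fstIdx ≠ some i)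
    (hv' : ((CoprodI.of m : CoprodI M) • v).fstIdx ≠ some i) : m = 1 := by
  have h1 := CoprodI.Word.equivPair_eq_of_fstIdx_ne hv
  have h2 := CoprodI.Word.equivPair_eq_of_fstIdx_ne hv'
  have h3 := CoprodI.Word.equivPair_smul_same m v
  rw [h1, h2] at h3
  have := congrArg (fun p : CoprodI.Word.Pair M i => p.head) h3
  simpa using this.symm

lemma fst_unique' (i : ι) (m m' : M i) (v : CoprodI.Word M)
    (hv : ((CoprodI.of m : CoprodI M) • v).fstIdx ≠ some i)
    (hv' : ((CoprodI.of m' : CoprodI M) • v).fstIdx ≠ some i) : m = m' := by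
  have h := fst_unique i (m' * m⁻¹) ((CoprodI.of m : CoprodI M) • v) hv (by
    rw [← mul_smul, ← map_mul, inv_mul_cancel_right]
    exact hv')
  rw [mul_inv_eq_one] at h
  exact h.symm

end Word

theorem splits_of_coprod {G : Type*} [Group G] (ψ : CoprodI (fun _ : Fin 2 => FreeGroup Unit) →* G)
    (hψ : Function.Injective ψ) :
    ∃ B : Set G, Splits (ψ.comp (CoprodI.of (i := (0 : Fin 2)))).range (ψ.comp (CoprodI.of (i := (1 : Fin 2)))).range B 1 := by
  set R := ψ.range with hR
  let ρ : G → G := fun y => (Quotient.mk (QuotientGroup.rightRel R) y).out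
  have hρ : ∀ y, y * (ρ y)⁻¹ ∈ R := by
    intro y
    have : (QuotientGroup.rightRel R) (ρ y) y := Quotient.mk_out (s := QuotientGroup.rightRel R) y
    rwa [QuotientGroup.rightRel_apply] at this
  have hρ2 : ∀ h y, h ∈ R → ρ (h * y) = ρ y := by
    intro h y hh
    have : Quotient.mk (QuotientGroup.rightRel R) (h * y) = Quotient.mk (QuotientGroup.rightRel R) y := by
      refine Quotient.sound ?_
      change (QuotientGroup.rightRel R) _ _
      rw [QuotientGroup.rightRel_apply]
      have : y * (h * y)⁻¹ = h⁻¹ := by group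
      rw [this]
      exact R.inv_mem hh
    simp only [ρ, this]
  choose w hw using fun y => (MonoidHom.mem_range.1 (hρ y))
  have hw2 : ∀ (i : Fin 2) (m : FreeGroup Unit) y, w (ψ (CoprodI.of (i := i) m) * y) = CoprodI.of (i := i) m * w y := by
    intro i m y
    apply hψ
    rw [hw, map_mul, hw, hρ2 _ _ ⟨_, rfl⟩, mul_assoc]
  let W : G → CoprodI.Word (fun _ : Fin 2 => FreeGroup Unit) := fun y => w y • CoprodI.Word.empty
  have hW2 : ∀ (i : Fin 2) (m : FreeGroup Unit) y, W (ψ (CoprodI.of (i := i) m) * y) =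
      (CoprodI.of (i := i) m : CoprodI (fun _ : Fin 2 => FreeGroup Unit)) • W y := by
    intro i m y
    simp only [W, hw2, mul_smul]
  refine ⟨{y | (W y).fstIdx ≠ some 0}, ?_, ?_⟩
  · intro y t ht
    refine Finset.card_le_one.2 fun a ha b hb => ?_
    obtain ⟨⟨m, rfl⟩, ha2⟩ := ht a ha
    obtain ⟨⟨m', rfl⟩, hb2⟩ := ht b hb
    have h1 : (W (ψ (CoprodI.of (i := (0 : Fin 2)) m) * y)).fstIdx ≠ some 0 := ha2
    have h2 : (W (ψ (CoprodI.of (i := (0 : Fin 2)) m') * y)).fstIdx ≠ some 0 := hb2
    rw [hW2] at h1 h2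
    rw [fst_unique' (0 : Fin 2) m m' (W y) h1 h2]
  · intro y t ht
    refine Finset.card_le_one.2 fun a ha b hb => ?_
    obtain ⟨⟨m, rfl⟩, ha2⟩ := ht a ha
    obtain ⟨⟨m', rfl⟩, hb2⟩ := ht b hb
    have h1 : (W (ψ (CoprodI.of (i := (1 : Fin 2)) m) * y)).fstIdx = some 0 := by
      by_contra hcon; exact ha2 hcon
    have h2 : (W (ψ (CoprodI.of (i := (1 : Fin 2)) m') * y)).fstIdx = some 0 := by
      by_contra hcon; exact hb2 hcon
    rw [hW2] at h1 h2
    rw [fst_unique' (1 : Fin 2) m m' (W y) (by rw [h1]; decide) (by rw [h2]; decide)]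

theorem data_of_free {G : Type*} [Group G] (φ : FreeGroup (Fin 2) →* G) (hφ : Function.Injective φ) :
    Nonempty (Data G) := by
  let ψ : CoprodI (fun _ : Fin 2 => FreeGroup Unit) →* G := φ.comp (freeGroupEquivCoprodI (ι := Fin 2)).symm.toMonoidHom
  have hψ : Function.Injective ψ := hφ.comp (freeGroupEquivCoprodI (ι := Fin 2)).symm.injective
  obtain ⟨B, hB⟩ := splits_of_coprod ψ hψ
  have hinj : ∀ i : Fin 2, Function.Injective (ψ.comp (CoprodI.of (i := i))) := fun i =>
    hψ.comp (CoprodI.of_injective i)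
  have e : ∀ i : Fin 2, FreeGroup Unit ≃* (ψ.comp (CoprodI.of (i := i))).range := fun i =>
    MonoidHom.ofInjective (hinj i)
  exact exists_data hB (Infinite.of_injective _ (e 0).injective) (Infinite.of_injective _ (e 1).injective)
    (folner_of_mulEquiv (e 1) folner_unit)

end Pool.Agent.V8H98.CVP
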